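import Pool.Agent.N156.HC.Pure
import Pool.Agent.Y890.SM.Inst

/-!
# Hyperelliptic curves with branch points in subsets of a common set: all points
-/

set_option autoImplicit false
set_option linter.unusedSectionVars false

open Complex Set Filter Topology Matrix

namespace Pool.Agent.N156.HC

open Pool.Agent.Y118.HP
open Pool.Agent.Y890.MV (evX evM evM_an)
open Pool.Agent.Y890.HE (Ord Ord_open Ord_convex Ord_real Ord_nonempty fH fH_an FM mt legendreC real_zero
  strictMono_of_mem)
open Pool.Agent.Y890.SM (Ix)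

variable {N : ℕ} {ι : Type} {n : ι → ℕ}

/-- the period matrices -/
noncomputable def PF (em : ∀ j, Fin (n j + 1) ↪o Fin (N + 1)) (x : Fin (N + 1) → ℂ) : MJ n :=
  fun j => FM fun r => x (em j r)

variable {em : ∀ j, Fin (n j + 1) ↪o Fin (N + 1)}

theorem Ord_sub {x : Fin (N + 1) → ℂ} (hx : x ∈ Ord N) (j : ι) : (fun r => x (em j r)) ∈ Ord (n j) :=
  fun _ _ h => hx _ _ ((em j).strictMono h)

theorem PF_an (j : ι) (l k : Fin (n j)) : AnalyticOnNhd ℂ (fun x => PF em x j l k) (Ord N) := by
  intro x hx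
  have h1 : AnalyticAt ℂ (fun (x : Fin (N + 1) → ℂ) (r : Fin (n j + 1)) => x (em j r)) x := by
    rw [analyticAt_pi_iff]
    intro r
    exact (ContinuousLinearMap.proj (R := ℂ) (φ := fun _ : Fin (N + 1) => ℂ) (em j r)).analyticAt x
  exact AnalyticAt.comp (g := fH (n j) (l, k)) (f := fun (x : Fin (N + 1) → ℂ) (r : Fin (n j + 1)) => x (em j r))
    (fH_an (l, k) _ (Ord_sub hx j)) h1

section sub

variable (em) (m : Fin (N + 1))

/-- the curves which ramify at the point `m` -/
abbrev Im : Type := {j : ι // ∃ r, em j r = m}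

/-- the position of `m` -/
noncomputable def pr (j : Im em m) : Fin (n j.1 + 1) := j.2.choose

theorem pr_spec (j : Im em m) : em j.1 (pr em m j) = m := j.2.choose_spec

theorem exists_ph (j : Im em m) (i : Fin (n j.1)) : ∃ k, m.succAbove k = em j.1 ((pr em m j).succAbove i) :=
  Fin.exists_succAbove_eq fun h => Fin.succAbove_ne _ _ ((em j.1).injective (h.trans (pr_spec em m j).symm))

/-- the other branch points -/
noncomputable def ph (j : Im em m) : Fin (n j.1) ↪o Fin N :=
  OrderEmbedding.ofStrictMono (fun i => (exists_ph em m j i).choose) fun i k h => by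
    have h1 := (exists_ph em m j i).choose_spec
    have h2 := (exists_ph em m j k).choose_spec
    rw [← Fin.succAbove_lt_succAbove_iff (p := m), h1, h2]
    exact (em j.1).strictMono (Fin.succAbove_lt_succAbove_iff.2 h)

theorem ph_spec (j : Im em m) (i : Fin (n j.1)) : m.succAbove (ph em m j i) = em j.1 ((pr em m j).succAbove i) :=
  (exists_ph em m j i).choose_spec

theorem pos_ph (j : Im em m) : pos (ph em m j) m = pr em m j := by
  refine ext_lt fun i => ?_
  have h1 : (em j.1 ((pr em m j).succAbove i) < m) ↔ em j.1 ((pr em m j).succAbove i) < em j.1 (pr em m j) := by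
    rw [pr_spec]
  rw [pos_lt, ← Fin.succAbove_lt_iff_castSucc_lt, ph_spec, h1, (em j.1).lt_iff_lt, Fin.succAbove_lt_iff_castSucc_lt]

theorem ph_range (j : Im em m) (k : Fin N) : (∃ i, ph em m j i = k) ↔ ∃ r, em j.1 r = m.succAbove k := by
  constructor
  · rintro ⟨i, rfl⟩
    exact ⟨_, (ph_spec em m j i).symm⟩
  · rintro ⟨r, hr⟩
    rcases Fin.eq_self_or_eq_succAbove (pr em m j) r with h | ⟨i, hi⟩
    · exfalso
      rw [h, pr_spec] at hr
      exact Fin.succAbove_ne _ _ hr.symm
    · refine ⟨i, Fin.succAbove_right_injective (p := m) ?_⟩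
      rw [ph_spec, ← hi, hr]

theorem ph_inj (hd : ∀ j j' : ι, (∀ k, (∃ r, em j r = k) ↔ (∃ r, em j' r = k)) → j = j') (j j' : Im em m)
    (h : ∀ k, (∃ i, ph em m j i = k) ↔ (∃ i, ph em m j' i = k)) : j = j' := by
  refine Subtype.ext (hd _ _ fun k => ?_)
  rcases Fin.eq_self_or_eq_succAbove m k with h1 | ⟨i, h1⟩
  · rw [h1]
    exact ⟨fun _ => j'.2, fun _ => j.2⟩
  · rw [h1, ← ph_range, ← ph_range]
    exact h i

end sub

section real

variable (m : Fin (N + 1))

/-- the real points without `m` -/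
def av (x : Fin (N + 1) → ℝ) (k : Fin N) : ℝ := x (m.succAbove k)

theorem av_mono {x : Fin (N + 1) → ℝ} (hx : StrictMono x) : StrictMono (av m x) := fun _ _ h =>
  hx (Fin.succAbove_lt_succAbove_iff.2 h)

theorem av_gap {x : Fin (N + 1) → ℝ} (hx : StrictMono x) : InGap (av m x) m (x m) := by
  intro i
  exact ⟨fun h => hx ((Fin.succAbove_lt_iff_castSucc_lt _ _).2 h), fun h =>
    hx ((Fin.lt_succAbove_iff_le_castSucc _ _).2 h)⟩

theorem gap_nhds {k : ℕ} {a : Fin k → ℝ} {p : Fin (k + 1)} {t : ℝ} (h : InGap a p t) :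
    ∃ ε > 0, ∀ s ∈ Icc (t - ε) t, InGap a p s := by
  have hopen : ∀ᶠ s in 𝓝 t, InGap a p s := by
    unfold InGap
    rw [eventually_all]
    intro i
    refine Filter.Eventually.and ?_ ?_
    · by_cases h1 : i.castSucc < p
      · filter_upwards [lt_mem_nhds ((h i).1 h1)] with s hs _
        exact hs
      · exact Eventually.of_forall fun s h2 => absurd h2 h1
    · by_cases h1 : p ≤ i.castSucc
      · filter_upwards [gt_mem_nhds ((h i).2 h1)] with s hs _
        exact hs
      · exact Eventually.of_forall fun s h2 => absurd h2 h1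
  obtain ⟨ε, hε, h1⟩ := Metric.eventually_nhds_iff.1 hopen
  refine ⟨ε / 2, by positivity, fun s hs => h1 ?_⟩
  rw [Real.dist_eq, abs_lt]
  constructor
  · linarith [hs.1]
  · linarith [hs.2]

theorem upd_av {x : Fin (N + 1) → ℝ} (t : ℝ) : Function.update x m t = er (av m x) m t := by
  funext i
  rcases Fin.eq_self_or_eq_succAbove m i with h | ⟨i', h⟩
  · rw [h]
    simp [er]
  · rw [h]
    simp [er, av, Fin.succAbove_ne]

theorem upd_cast {x : Fin (N + 1) → ℝ} (t : ℝ) :
    Function.update (fun i => (x i : ℂ)) m (t : ℂ) = fun i => ((er (av m x) m t i : ℝ) : ℂ) := by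
  rw [← upd_av]
  funext i
  by_cases h : i = m
  · subst h
    simp
  · simp [Function.update_of_ne h]

theorem upd_ee (j : Im em m) (x : Fin (N + 1) → ℝ) (z : ℂ) :
    (fun r => Function.update (fun i => (x i : ℂ)) m z (em j.1 r)) =
      ee (fun i => av m x (ph em m j i)) (pos (ph em m j) m) z := by
  rw [pos_ph]
  funext r
  rcases Fin.eq_self_or_eq_succAbove (pr em m j) r with h | ⟨i, h⟩
  · rw [h, pr_spec]
    simp [ee]
  · rw [h, ← ph_spec, Function.update_of_ne (Fin.succAbove_ne _ _)]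
    simp [ee, av]

theorem PMJ_eq (j : Im em m) (x : Fin (N + 1) → ℝ) (z : ℂ) :
    PMJ (ph em m) (av m x) m z j = PF em (Function.update (fun i => (x i : ℂ)) m z) j.1 := by
  unfold PMJ PF PM
  rw [upd_ee]
  rfl

end real

section spe

variable [DecidableEq ι] (em) (m : Fin (N + 1))

/-- the tuple with the matrices for the curves which ramify at `m` replaced -/
noncomputable def glJ (x : Fin (N + 1) → ℂ) (Y : MJ fun j : Im em m => n j.1) : MJ n := by
  classical
  exact fun j => if h : ∃ r, em j r = m then Y ⟨j, h⟩ else PF em x j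

theorem glJ_of (x : Fin (N + 1) → ℂ) (Y : MJ fun j : Im em m => n j.1) (j : Im em m) : glJ em m x Y j.1 = Y j := by
  unfold glJ
  simp only [dif_pos j.2]

theorem glJ_not (x : Fin (N + 1) → ℂ) (Y : MJ fun j : Im em m => n j.1) {j : ι} (h : ¬ ∃ r, em j r = m) :
    glJ em m x Y j = PF em x j := by
  unfold glJ
  simp only [dif_neg h]

/-- substitution of constants for all branch points but `m` -/
noncomputable def speJ (x : Fin (N + 1) → ℂ) : MvPolynomial (Ix n) (MvPolynomial (Fin (N + 1)) ℂ) →+*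
    MvPolynomial (Option (IJ fun j : Im em m => n j.1)) ℂ := by
  classical
  exact MvPolynomial.eval₂Hom (MvPolynomial.eval₂Hom MvPolynomial.C
    (Function.update (fun i => MvPolynomial.C (x i)) m (MvPolynomial.X none)))
    (fun q => if h : ∃ r, em q.1 r = m then MvPolynomial.X (some ⟨⟨q.1, h⟩, q.2⟩) else
      MvPolynomial.C (PF em x q.1 q.2.1 q.2.2))

theorem speJ_ev (x : Fin (N + 1) → ℂ) (z : ℂ) (Y : MJ fun j : Im em m => n j.1)
    (p : MvPolynomial (Ix n) (MvPolynomial (Fin (N + 1)) ℂ)) :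
    evJ (speJ em m x p) z Y = evX (Function.update x m z) (fun q => glJ em m x Y q.1 q.2.1 q.2.2) p := by
  classical
  have h1 : (MvPolynomial.eval (fun o : Option (IJ fun j : Im em m => n j.1) =>
      o.elim z fun q => Y q.1 q.2.1 q.2.2)).comp (speJ em m x) =
      MvPolynomial.eval₂Hom (MvPolynomial.eval (Function.update x m z))
        (fun q => glJ em m x Y q.1 q.2.1 q.2.2) := by
    refine MvPolynomial.ringHom_ext (fun b => ?_) (fun q => ?_)
    · have h2 : ((MvPolynomial.eval (fun o : Option (IJ fun j : Im em m => n j.1) =>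
          o.elim z fun q => Y q.1 q.2.1 q.2.2)).comp (speJ em m x)).comp MvPolynomial.C =
          MvPolynomial.eval (Function.update x m z) := by
        refine MvPolynomial.ringHom_ext (fun c => ?_) (fun i => ?_)
        · simp [speJ]
        · by_cases hi : i = m
          · subst hi
            simp [speJ]
          · simp [speJ, Function.update_of_ne hi]
      have h3 := congrArg (fun g => g b) h2
      simp only [RingHom.comp_apply] at h3
      rw [RingHom.comp_apply, h3]
      exact (MvPolynomial.eval₂Hom_C _ _ _).symm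
    · obtain ⟨j, q⟩ := q
      by_cases h : ∃ r, em j r = m
      · have h4 := glJ_of em m x Y ⟨j, h⟩
        simp only at h4
        simp [speJ, h, h4]
      · simp [speJ, h, glJ_not em m x Y h]
  exact congrArg (fun g => g p) h1

end spe

section inv

variable [Fintype ι] [DecidableEq ι]

theorem inv_single (hn : ∀ j, Even (n j)) (hpos : ∀ j, 0 < n j)
    (hd : ∀ j j' : ι, (∀ k, (∃ r, em j r = k) ↔ (∃ r, em j' r = k)) → j = j')
    (p : MvPolynomial (Ix n) (MvPolynomial (Fin (N + 1)) ℂ))
    (hp : ∀ x ∈ Ord N, evX x (fun q => PF em x q.1 q.2.1 q.2.2) p = 0)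
    (j : ι) (g : Matrix (Fin (n j)) (Fin (n j)) ℂ) (hg : g ∈ SpS ℂ (n j)) :
    ∀ x ∈ Ord N, evX x (fun q => ((Pi.mulSingle j g : MJ n) * PF em x) q.1 q.2.1 q.2.2) p = 0 := by
  classical
  obtain ⟨e0, he0⟩ : ∃ e0 : Fin (N + 1) → ℝ, (fun i => (e0 i : ℂ)) ∈ Ord N :=
    ⟨fun i => (i : ℝ), Ord_real (fun i k h => by
      show ((i : ℕ) : ℝ) < ((k : ℕ) : ℝ)
      exact_mod_cast h)⟩
  refine real_zero (Ord_open N) (Ord_convex N).isPreconnected he0 ?_ ?_
  · have h1 : (fun x : Fin (N + 1) → ℂ => evX x (fun q => ((Pi.mulSingle j g : MJ n) * PF em x) q.1 q.2.1 q.2.2) p) =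
        fun x => evM (fun q x => ((Pi.mulSingle j g : MJ n) * PF em x) q.1 q.2.1 q.2.2) x p := rfl
    rw [h1]
    refine evM_an (fun q => ?_) p
    intro x hx
    simp only [Pi.mul_apply, Matrix.mul_apply]
    refine Finset.analyticAt_fun_sum _ fun k _ => ?_
    exact analyticAt_const.mul (PF_an q.1 k q.2.2 x hx)
  · intro x hx
    have hx' := strictMono_of_mem hx
    set m : Fin (N + 1) := em j 0 with hm
    have ha := av_mono m hx'
    have hj : ∃ r, em j r = m := ⟨0, rfl⟩
    obtain ⟨ε, hε, hgap⟩ := gap_nhds (av_gap m hx')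
    have hId : speJ em m (fun i => (x i : ℂ)) p ∈ IdJ (ph em m) (av m x) m := by
      refine eq_zero_of_real ha m (differentiableOn_evJ ha m _) (show x m - ε < x m by linarith) hgap ?_
      intro t ht
      rw [speJ_ev]
      have h2 : Function.update (fun i => (x i : ℂ)) m (t : ℂ) ∈ Ord N := by
        rw [upd_cast]
        exact Ord_real (er_strictMono ha (hgap t ht))
      have h3 : glJ em m (fun i => (x i : ℂ)) (PMJ (ph em m) (av m x) m (t : ℂ)) =
          PF em (Function.update (fun i => (x i : ℂ)) m (t : ℂ)) := by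
        funext j'
        by_cases h : ∃ r, em j' r = m
        · have h4 := glJ_of em m (fun i => (x i : ℂ)) (PMJ (ph em m) (av m x) m (t : ℂ)) ⟨j', h⟩
          simp only at h4
          rw [h4, PMJ_eq]
        · rw [glJ_not em m _ _ h]
          unfold PF
          congr 1
          funext r
          rw [Function.update_of_ne]
          exact fun hr => h ⟨r, hr⟩
      rw [h3]
      exact hp _ h2
    have hS := single_sp (φ := ph em m) (fun j => hn j.1) (fun j => hpos j.1) (ph_inj em m hd) ha m ⟨j, hj⟩ hg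
    have key := mem_MonJ'.1 hS _ hId (x m : ℂ) (av_gap m hx').mem_Dm
    rw [speJ_ev] at key
    have h5 : Function.update (fun i => (x i : ℂ)) m (x m : ℂ) = fun i => (x i : ℂ) := Function.update_eq_self m _
    have h6 : glJ em m (fun i => (x i : ℂ)) ((Pi.mulSingle (⟨j, hj⟩ : Im em m) g : MJ fun j : Im em m => n j.1) *
        PMJ (ph em m) (av m x) m (x m : ℂ)) = (Pi.mulSingle j g : MJ n) * PF em (fun i => (x i : ℂ)) := by
      funext j'
      by_cases h : ∃ r, em j' r = m
      · have h4 := glJ_of em m (fun i => (x i : ℂ)) ((Pi.mulSingle (⟨j, hj⟩ : Im em m) g : MJ fun j : Im em m => n j.1) *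
          PMJ (ph em m) (av m x) m (x m : ℂ)) ⟨j', h⟩
        simp only at h4
        rw [h4, Pi.mul_apply, Pi.mul_apply, PMJ_eq, h5]
        by_cases hjj : j' = j
        · subst hjj
          rw [Pi.mulSingle_eq_same, Pi.mulSingle_eq_same]
        · rw [Pi.mulSingle_eq_of_ne hjj, Pi.mulSingle_eq_of_ne (fun h7 => hjj (congrArg Subtype.val h7))]
      · rw [glJ_not em m _ _ h, Pi.mul_apply, Pi.mulSingle_eq_of_ne, one_mul]
        rintro rfl
        exact h hj
    rw [h5, h6] at key
    exact key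

/-- substitution `Y ↦ g Y` -/
noncomputable def sbX (g : MJ n) (p : MvPolynomial (Ix n) (MvPolynomial (Fin (N + 1)) ℂ)) :
    MvPolynomial (Ix n) (MvPolynomial (Fin (N + 1)) ℂ) :=
  MvPolynomial.bind₁ (fun q : Ix n => ∑ k, MvPolynomial.C (MvPolynomial.C (g q.1 q.2.1 k)) *
    MvPolynomial.X (⟨q.1, (k, q.2.2)⟩ : Ix n)) p

theorem evX_sb (g : MJ n) (p : MvPolynomial (Ix n) (MvPolynomial (Fin (N + 1)) ℂ)) (x : Fin (N + 1) → ℂ) (Y : MJ n) :
    evX x (fun q => Y q.1 q.2.1 q.2.2) (sbX g p) = evX x (fun q => (g * Y) q.1 q.2.1 q.2.2) p := by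
  have h1 : (MvPolynomial.eval₂Hom (MvPolynomial.eval x) (fun q : Ix n => Y q.1 q.2.1 q.2.2)).comp
      (MvPolynomial.bind₁ (fun q : Ix n => ∑ k, MvPolynomial.C (MvPolynomial.C (g q.1 q.2.1 k)) *
        (MvPolynomial.X (⟨q.1, (k, q.2.2)⟩ : Ix n) : MvPolynomial (Ix n) (MvPolynomial (Fin (N + 1)) ℂ)))).toRingHom =
      MvPolynomial.eval₂Hom (MvPolynomial.eval x) (fun q : Ix n => (g * Y) q.1 q.2.1 q.2.2) := by
    refine MvPolynomial.ringHom_ext (fun b => ?_) (fun q => ?_)
    · simp
    · simp [Matrix.mul_apply]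
  exact congrArg (fun g => g p) h1

/-- the monoid of the tuples which preserve the relations -/
def MonX (em : ∀ j, Fin (n j + 1) ↪o Fin (N + 1)) : Submonoid (MJ n) where
  carrier := {g | ∀ p : MvPolynomial (Ix n) (MvPolynomial (Fin (N + 1)) ℂ),
    (∀ x ∈ Ord N, evX x (fun q => PF em x q.1 q.2.1 q.2.2) p = 0) →
    ∀ x ∈ Ord N, evX x (fun q => (g * PF em x) q.1 q.2.1 q.2.2) p = 0}
  one_mem' := by
    intro p hp x hx
    rw [one_mul]
    exact hp x hx
  mul_mem' := by
    intro g h hg hh p hp x hx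
    have h1 := hh (sbX g p) (fun x hx => by rw [evX_sb]; exact hg p hp x hx) x hx
    rw [evX_sb, ← mul_assoc] at h1
    exact h1

/-- **All tuples of symplectic matrices preserve the relations.** -/
theorem inv_all (hn : ∀ j, Even (n j)) (hpos : ∀ j, 0 < n j)
    (hd : ∀ j j' : ι, (∀ k, (∃ r, em j r = k) ↔ (∃ r, em j' r = k)) → j = j')
    (g : MJ n) (hg : ∀ j, g j ∈ SpS ℂ (n j)) : g ∈ MonX em :=
  tuple_mem _ _ fun j p hp x hx => inv_single hn hpos hd p hp j (g j) (hg j) x hx

end inv

end Pool.Agent.N156.HC
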