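import Pool.Agent.N156.HC.Fam

/-!
# Hyperelliptic curves with branch points in subsets of a common set: the family
-/

set_option autoImplicit false
set_option linter.unusedSectionVars false

open Filter Matrix NumberField

namespace Pool.Agent.N156.HC

open Pool.Agent.Y118.HP (jm SpS jm_det jm_transpose jm_map SpS_map qm perC)
open Pool.Agent.Y890.MV
open Pool.Agent.Y890.HE
open Pool.Agent.Y890.SM
open Pool.Agent.Y890.SP (Qbar)

section gen

variable {N : ℕ} {ι : Type} {n : ι → ℕ} (em : ∀ j, Fin (n j + 1) ↪o Fin (N + 1))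

/-- the coefficients of the polynomials with given roots -/
noncomputable def cfE (j : ι) (m : ℕ) : MvPolynomial (Fin (N + 1)) Qbar :=
  (∏ r : Fin (n j + 1), (Polynomial.X - Polynomial.C (MvPolynomial.X (R := Qbar) (em j r)))).coeff m

theorem cfE_eval (j : ι) (m : ℕ) (e : Fin (N + 1) → ℂ) :
    MvPolynomial.aeval e (cfE em j m) =
      (∏ r : Fin (n j + 1), (Polynomial.X - Polynomial.C (e (em j r)))).coeff m := by
  have h1 : (∏ r : Fin (n j + 1), (Polynomial.X - Polynomial.C (e (em j r)))) =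
      (∏ r : Fin (n j + 1), (Polynomial.X - Polynomial.C (MvPolynomial.X (R := Qbar) (em j r)))).map
        (MvPolynomial.aeval e : _ →ₐ[Qbar] ℂ).toRingHom := by
    rw [Polynomial.map_prod]
    refine Finset.prod_congr rfl fun r _ => ?_
    rw [Polynomial.map_sub, Polynomial.map_X, Polynomial.map_C]
    simp
  rw [h1, Polynomial.coeff_map]
  rfl

/-- the polarization -/
noncomputable def QE (j : ι) : Matrix (Fin (n j)) (Fin (n j)) (MvPolynomial (Fin (N + 1)) Qbar) :=
  Matrix.of fun a b => MvPolynomial.C (twoI * ((((a : ℕ) : Qbar) - ((b : ℕ) : Qbar)) / 2)) *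
    cfE em j ((a : ℕ) + (b : ℕ) + 2)

theorem QE_eval (j : ι) (e : Fin (N + 1) → ℂ) :
    (QE em j).map (MvPolynomial.aeval e) =
      (2 * Complex.I) • qm (n j) (∏ r : Fin (n j + 1), (Polynomial.X - Polynomial.C (e (em j r)))) := by
  refine Matrix.ext fun a b => ?_
  rw [Matrix.map_apply, QE, Matrix.of_apply, map_mul, cfE_eval, MvPolynomial.aeval_C, Matrix.smul_apply, qm,
    Matrix.of_apply, map_mul, map_div₀, map_sub, map_natCast, map_natCast, map_ofNat, twoI_coe, smul_eq_mul]
  ring

theorem QE_alt (j : ι) : (QE em j).transpose = -QE em j := by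
  refine Matrix.ext fun a b => ?_
  have h1 : (MvPolynomial.C (twoI * ((((b : ℕ) : Qbar) - ((a : ℕ) : Qbar)) / 2)) :
      MvPolynomial (Fin (N + 1)) Qbar) =
      -MvPolynomial.C (twoI * ((((a : ℕ) : Qbar) - ((b : ℕ) : Qbar)) / 2)) := by
    rw [← map_neg]
    congr 1
    ring
  rw [Matrix.transpose_apply, Matrix.neg_apply, QE, Matrix.of_apply, Matrix.of_apply,
    show (b : ℕ) + (a : ℕ) + 2 = (a : ℕ) + (b : ℕ) + 2 by omega, h1]
  generalize (MvPolynomial.C (twoI * ((((a : ℕ) : Qbar) - ((b : ℕ) : Qbar)) / 2)) :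
      MvPolynomial (Fin (N + 1)) Qbar) = A
  generalize cfE em j ((a : ℕ) + (b : ℕ) + 2) = B
  ring

variable [Fintype ι] [DecidableEq ι]

/-- the family of all the curves -/
noncomputable def fam (hn : ∀ j, Even (n j)) (hpos : ∀ j, 0 < n j)
    (hd : ∀ j j' : ι, (∀ k, (∃ r, em j r = k) ↔ (∃ r, em j' r = k)) → j = j') : SympFam (Fin (N + 1)) n where
  U := Ord N
  isOpen := Ord_open N
  conn := (Ord_convex N).isPreconnected
  nonempty := Ord_nonempty N
  P := fun j e => PF em e j
  an := PF_an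
  w := fun _ => 1
  Q := QE em
  Q_alt := QE_alt em
  J := fun i => jm ℚ (n i)
  J_alt := fun i => jm_transpose
  J_det := fun i => jm_det (hn i)
  riemann := by
    intro e he i
    have h1 := legendreC (hn i) (Ord_sub he i (em := em))
    rw [Qg_eval] at h1
    have h2 : (jm ℚ (n i)).map (algebraMap ℚ ℂ) = jm ℂ (n i) := jm_map (algebraMap ℚ ℂ)
    have h3 : PF em e i * qm (n i) (∏ r : Fin (n i + 1), (Polynomial.X - Polynomial.C (e (em i r)))) *
      (PF em e i).transpose = (Real.pi : ℂ) • jm ℂ (n i) := h1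
    rw [QE_eval, h2, Matrix.mul_smul, Matrix.smul_mul, h3, smul_smul, pow_one]
    congr 1
    unfold tpi
    ring
  Γ := {γ | ∀ i, γ i ∈ SpS ℚ (n i)}
  pres := fun γ hγ i => hγ i
  mon := by
    intro γ hγ p hp e he
    exact inv_all hn hpos hd (fun i => (γ i).map (algebraMap ℚ ℂ)) (fun i => SpS_map (algebraMap ℚ ℂ) (hγ i)) p hp e he
  dense := by
    intro R hR M hM
    refine dense_prod hn R (fun g hg => hR g hg) M fun i => ?_
    have h1 := hM i
    have h2 : (jm ℚ (n i)).map (algebraMap ℚ ℂ) = jm ℂ (n i) := jm_map (algebraMap ℚ ℂ)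
    rw [h2] at h1
    exact h1

end gen

end Pool.Agent.N156.HC
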