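import Pool.Agent.N156.HC.SpGen
import Pool.Agent.Y118.HP.FI

/-!
# Hyperelliptic curves with branch points in subsets of a common set: one moving point
-/

set_option autoImplicit false

open Complex Set Filter Topology Matrix

namespace Pool.Agent.N156.HC

open Pool.Agent.Y118.HP

section pos

variable {N n : ℕ}

/-- the gap of the points `φ i` which contains the gap `p` of all points -/
def pos (φ : Fin n ↪o Fin N) (p : Fin (N + 1)) : Fin (n + 1) :=
  ⟨(Finset.univ.filter fun i : Fin n => (φ i).castSucc < p).card, by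
    have h := Finset.card_filter_le (Finset.univ : Finset (Fin n)) (fun i => (φ i).castSucc < p)
    rw [Finset.card_univ, Fintype.card_fin] at h
    omega⟩

theorem pos_lt (φ : Fin n ↪o Fin N) (p : Fin (N + 1)) (i : Fin n) :
    i.castSucc < pos φ p ↔ (φ i).castSucc < p := by
  constructor
  · intro h
    by_contra hcon
    have h1 : (Finset.univ.filter fun i : Fin n => (φ i).castSucc < p) ⊆ Finset.Iio i := by
      intro k hk
      rw [Finset.mem_filter] at hk
      rw [Finset.mem_Iio]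
      by_contra hki
      rw [not_lt] at hki hcon
      exact absurd hk.2 (not_lt.2 (hcon.trans (Fin.castSucc_le_castSucc_iff.2 (φ.monotone hki))))
    have h2 := Finset.card_le_card h1
    rw [Fin.card_Iio] at h2
    rw [Fin.lt_def] at h
    have h3 : (i : ℕ) < (Finset.univ.filter fun i : Fin n => (φ i).castSucc < p).card := h
    omega
  · intro h
    have h1 : Finset.Iic i ⊆ (Finset.univ.filter fun i : Fin n => (φ i).castSucc < p) := by
      intro k hk
      rw [Finset.mem_Iic] at hk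
      rw [Finset.mem_filter]
      exact ⟨Finset.mem_univ _, lt_of_le_of_lt (Fin.castSucc_le_castSucc_iff.2 (φ.monotone hk)) h⟩
    have h2 := Finset.card_le_card h1
    rw [Fin.card_Iic] at h2
    rw [Fin.lt_def]
    show (i : ℕ) < (Finset.univ.filter fun i : Fin n => (φ i).castSucc < p).card
    omega

theorem ext_lt {p q : Fin (n + 1)} (h : ∀ i : Fin n, i.castSucc < p ↔ i.castSucc < q) : p = q := by
  rcases lt_trichotomy p q with h1 | h1 | h1
  · exfalso
    have h2 : (p : ℕ) < n := by have := q.2; have : (p : ℕ) < q := h1; omega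
    have h3 := (h ⟨p, h2⟩).2 (by rw [Fin.lt_def]; exact h1)
    rw [Fin.lt_def] at h3
    exact absurd h3 (lt_irrefl _)
  · exact h1
  · exfalso
    have h2 : (q : ℕ) < n := by have := p.2; have : (q : ℕ) < p := h1; omega
    have h3 := (h ⟨q, h2⟩).1 (by rw [Fin.lt_def]; exact h1)
    rw [Fin.lt_def] at h3
    exact absurd h3 (lt_irrefl _)

theorem pos_castSucc (φ : Fin n ↪o Fin N) (k' : Fin n) : pos φ (φ k').castSucc = k'.castSucc := by
  refine ext_lt fun i => ?_
  rw [pos_lt, Fin.castSucc_lt_castSucc_iff, Fin.castSucc_lt_castSucc_iff, φ.lt_iff_lt]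

theorem pos_succ (φ : Fin n ↪o Fin N) (k' : Fin n) : pos φ (φ k').succ = k'.succ := by
  refine ext_lt fun i => ?_
  rw [pos_lt, Fin.castSucc_lt_succ_iff, Fin.castSucc_lt_succ_iff, φ.le_iff_le]

theorem pos_same (φ : Fin n ↪o Fin N) {k : Fin N} (hk : ¬ ∃ k', φ k' = k) : pos φ k.succ = pos φ k.castSucc := by
  refine ext_lt fun i => ?_
  rw [pos_lt, pos_lt, Fin.castSucc_lt_succ_iff, Fin.castSucc_lt_castSucc_iff]
  constructor
  · intro h
    exact lt_of_le_of_ne h fun h1 => hk ⟨i, h1⟩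
  · exact le_of_lt

theorem inGap_sub (φ : Fin n ↪o Fin N) {a : Fin N → ℝ} {p : Fin (N + 1)} {t : ℝ} (h : InGap a p t) :
    InGap (fun i => a (φ i)) (pos φ p) t := by
  intro i
  refine ⟨fun h1 => (h (φ i)).1 ((pos_lt φ p i).1 h1), fun h1 => (h (φ i)).2 ?_⟩
  rw [← not_lt] at h1 ⊢
  rwa [pos_lt] at h1

theorem Dm_sub (φ : Fin n ↪o Fin N) (a : Fin N → ℝ) (p : Fin (N + 1)) :
    Dm a p ⊆ Dm (fun i => a (φ i)) (pos φ p) := by
  intro z hz i
  refine ⟨fun h1 => (hz (φ i)).1 ((pos_lt φ p i).1 h1), fun h1 => (hz (φ i)).2 ?_⟩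
  rw [← not_lt] at h1 ⊢
  rwa [pos_lt] at h1

theorem mono_sub (φ : Fin n ↪o Fin N) {a : Fin N → ℝ} (ha : StrictMono a) : StrictMono fun i => a (φ i) :=
  ha.comp φ.strictMono

end pos

variable {N : ℕ} {ι : Type} {n : ι → ℕ}

/-- tuples of matrices -/
abbrev MJ (n : ι → ℕ) : Type := ∀ j, Matrix (Fin (n j)) (Fin (n j)) ℂ

/-- the indices of their entries -/
abbrev IJ (n : ι → ℕ) : Type := Σ j, Fin (n j) × Fin (n j)

/-- the period matrices of all the curves -/
noncomputable def PMJ (φ : ∀ j, Fin (n j) ↪o Fin N) (a : Fin N → ℝ) (p : Fin (N + 1)) (z : ℂ) : MJ n :=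
  fun j => PM (fun i => a (φ j i)) (pos (φ j) p) z

/-- evaluation of a polynomial in `z` and the entries of a tuple of matrices -/
noncomputable def evJ (P : MvPolynomial (Option (IJ n)) ℂ) (z : ℂ) (Y : MJ n) : ℂ :=
  MvPolynomial.eval (fun o => o.elim z fun q => Y q.1 q.2.1 q.2.2) P

/-- substitution `Y ↦ g Y` -/
noncomputable def sbJ (g : MJ n) (P : MvPolynomial (Option (IJ n)) ℂ) : MvPolynomial (Option (IJ n)) ℂ :=
  MvPolynomial.bind₁ (fun o => o.elim (MvPolynomial.X none) fun q : IJ n =>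
    ∑ k, MvPolynomial.C (g q.1 q.2.1 k) * MvPolynomial.X (some (⟨q.1, (k, q.2.2)⟩ : IJ n))) P

theorem evJ_sb (g : MJ n) (P : MvPolynomial (Option (IJ n)) ℂ) (z : ℂ) (Y : MJ n) :
    evJ (sbJ g P) z Y = evJ P z (g * Y) := by
  unfold evJ sbJ
  rw [← MvPolynomial.coe_aeval_eq_eval, ← MvPolynomial.coe_aeval_eq_eval]
  simp only [RingHom.coe_coe]
  rw [MvPolynomial.aeval_bind₁]
  congr 2
  funext o
  rcases o with _ | q
  · simp
  · simp [Matrix.mul_apply]

variable {φ : ∀ j, Fin (n j) ↪o Fin N}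

theorem differentiableOn_evJ {a : Fin N → ℝ} (ha : StrictMono a) (p : Fin (N + 1))
    (P : MvPolynomial (Option (IJ n)) ℂ) : DifferentiableOn ℂ (fun z => evJ P z (PMJ φ a p z)) (Dm a p) := by
  unfold evJ
  refine differentiableOn_eval (fun (o : Option (IJ n)) z => o.elim z fun q => PMJ φ a p z q.1 q.2.1 q.2.2) ?_ P
  rintro (_ | q)
  · exact differentiableOn_id
  · exact (differentiableOn_perC (mono_sub (φ q.1) ha) (pos (φ q.1) p) q.2.1 q.2.2).mono (Dm_sub (φ q.1) a p)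

/-- the relations of the periods -/
def IdJ (φ : ∀ j, Fin (n j) ↪o Fin N) (a : Fin N → ℝ) (p : Fin (N + 1)) : Set (MvPolynomial (Option (IJ n)) ℂ) :=
  {P | ∀ z ∈ Dm a p, evJ P z (PMJ φ a p z) = 0}

theorem mem_IdJ_of_upper {a : Fin N → ℝ} (ha : StrictMono a) (p : Fin (N + 1))
    {P : MvPolynomial (Option (IJ n)) ℂ} (h : ∀ z : ℂ, 0 < z.im → evJ P z (PMJ φ a p z) = 0) :
    P ∈ IdJ φ a p :=
  eq_zero_of_open ha p (differentiableOn_evJ ha p P) (V := {z : ℂ | 0 < z.im})
    (isOpen_lt continuous_const continuous_im) (z0 := I) (by simp) (mem_Dm_of_im a p (by simp)) h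

theorem mem_IdJ_of_lower {a : Fin N → ℝ} (ha : StrictMono a) (p : Fin (N + 1))
    {P : MvPolynomial (Option (IJ n)) ℂ} (h : ∀ z : ℂ, z.im < 0 → evJ P z (PMJ φ a p z) = 0) :
    P ∈ IdJ φ a p :=
  eq_zero_of_open ha p (differentiableOn_evJ ha p P) (V := {z : ℂ | z.im < 0})
    (isOpen_lt continuous_im continuous_const) (z0 := -I) (by simp) (mem_Dm_of_im a p (by simp)) h

/-- simultaneous transvections -/
noncomputable def TJ (φ : ∀ j, Fin (n j) ↪o Fin N) (k : Fin N) (s : ℂ) : MJ n := by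
  classical
  exact fun j => if h : ∃ k', φ j k' = k then Tk h.choose s else 1

theorem TJ_of {j : ι} {k' : Fin (n j)} {k : Fin N} (h : φ j k' = k) (s : ℂ) : TJ φ k s j = Tk k' s := by
  classical
  have h1 : ∃ k', φ j k' = k := ⟨k', h⟩
  have h2 : h1.choose = k' := (φ j).injective (h1.choose_spec.trans h.symm)
  unfold TJ
  simp only [dif_pos h1, h2]

theorem TJ_not {j : ι} {k : Fin N} (h : ¬ ∃ k', φ j k' = k) (s : ℂ) : TJ φ k s j = 1 := by
  classical
  unfold TJ
  simp only [dif_neg h]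

theorem TJ_mul (k : Fin N) (s s' : ℂ) : TJ φ k s * TJ φ k s' = TJ φ k (s + s') := by
  funext j
  rw [Pi.mul_apply]
  by_cases h : ∃ k', φ j k' = k
  · obtain ⟨k', h⟩ := h
    rw [TJ_of h, TJ_of h, TJ_of h, Tk_mul]
  · rw [TJ_not h, TJ_not h, TJ_not h, mul_one]

theorem TJ_zero (k : Fin N) : TJ φ k 0 = 1 := by
  funext j
  rw [Pi.one_apply]
  by_cases h : ∃ k', φ j k' = k
  · obtain ⟨k', h⟩ := h
    rw [TJ_of h, Tk_zero]
  · rw [TJ_not h]

theorem PMJ_upper {a : Fin N → ℝ} (ha : StrictMono a) (k : Fin N) {z : ℂ} (hz : 0 < z.im) :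
    PMJ φ a k.succ z = TJ φ k (-I) * PMJ φ a k.castSucc z := by
  funext j
  rw [Pi.mul_apply]
  by_cases h : ∃ k', φ j k' = k
  · obtain ⟨k', rfl⟩ := h
    rw [TJ_of rfl]
    unfold PMJ
    rw [pos_castSucc, pos_succ]
    exact PM_upper (mono_sub (φ j) ha) k' hz
  · rw [TJ_not h, one_mul]
    unfold PMJ
    rw [pos_same (φ j) h]

theorem PMJ_lower {a : Fin N → ℝ} (ha : StrictMono a) (k : Fin N) {z : ℂ} (hz : z.im < 0) :
    PMJ φ a k.succ z = TJ φ k I * PMJ φ a k.castSucc z := by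
  funext j
  rw [Pi.mul_apply]
  by_cases h : ∃ k', φ j k' = k
  · obtain ⟨k', rfl⟩ := h
    rw [TJ_of rfl]
    unfold PMJ
    rw [pos_castSucc, pos_succ]
    exact PM_lower (mono_sub (φ j) ha) k' hz
  · rw [TJ_not h, one_mul]
    unfold PMJ
    rw [pos_same (φ j) h]

theorem PMJ_upper' {a : Fin N → ℝ} (ha : StrictMono a) (k : Fin N) {z : ℂ} (hz : 0 < z.im) :
    PMJ φ a k.castSucc z = TJ φ k I * PMJ φ a k.succ z := by
  rw [PMJ_upper ha k hz, ← mul_assoc, TJ_mul, add_neg_cancel, TJ_zero, one_mul]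

theorem PMJ_lower' {a : Fin N → ℝ} (ha : StrictMono a) (k : Fin N) {z : ℂ} (hz : z.im < 0) :
    PMJ φ a k.castSucc z = TJ φ k (-I) * PMJ φ a k.succ z := by
  rw [PMJ_lower ha k hz, ← mul_assoc, TJ_mul, neg_add_cancel, TJ_zero, one_mul]

/-- the monoid of the tuples of matrices which preserve the relations -/
def MonJ (φ : ∀ j, Fin (n j) ↪o Fin N) (a : Fin N → ℝ) (p : Fin (N + 1)) : Submonoid (MJ n) where
  carrier := {g | ∀ P ∈ IdJ φ a p, sbJ g P ∈ IdJ φ a p}
  one_mem' := by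
    intro P hP z hz
    rw [evJ_sb, one_mul]
    exact hP z hz
  mul_mem' := by
    intro g h hg hh P hP
    have h1 := hh (sbJ g P) (hg P hP)
    intro z hz
    have h2 := h1 z hz
    rw [evJ_sb, evJ_sb] at h2
    rw [evJ_sb, mul_assoc]
    exact h2

theorem mem_MonJ {a : Fin N → ℝ} {p : Fin (N + 1)} {g : MJ n} :
    g ∈ MonJ φ a p ↔ ∀ P ∈ IdJ φ a p, sbJ g P ∈ IdJ φ a p := Iff.rfl

theorem mem_MonJ' {a : Fin N → ℝ} {p : Fin (N + 1)} {g : MJ n} :
    g ∈ MonJ φ a p ↔ ∀ P ∈ IdJ φ a p, ∀ z ∈ Dm a p, evJ P z (g * PMJ φ a p z) = 0 := by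
  rw [mem_MonJ]
  constructor
  · intro h P hP z hz
    have := h P hP z hz
    rwa [evJ_sb] at this
  · intro h P hP z hz
    rw [evJ_sb]
    exact h P hP z hz

/-- monodromy around `a k`, starting at the left -/
theorem mono_leftJ {a : Fin N → ℝ} (ha : StrictMono a) (k : Fin N) : TJ φ k (2 * I) ∈ MonJ φ a k.castSucc := by
  intro P hP
  have h1 : sbJ (TJ φ k I) P ∈ IdJ φ a k.succ := mem_IdJ_of_upper ha _ fun z hz => by
    rw [evJ_sb, ← PMJ_upper' ha k hz]
    exact hP z (mem_Dm_of_im _ _ hz.ne')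
  refine mem_IdJ_of_lower ha _ fun z hz => ?_
  have h2 := h1 z (mem_Dm_of_im _ _ hz.ne)
  rw [evJ_sb, PMJ_lower ha k hz, ← mul_assoc, TJ_mul] at h2
  rw [evJ_sb, two_mul]
  exact h2

theorem mono_rightJ {a : Fin N → ℝ} (ha : StrictMono a) (k : Fin N) : TJ φ k (-(2 * I)) ∈ MonJ φ a k.succ := by
  intro P hP
  have h1 : sbJ (TJ φ k (-I)) P ∈ IdJ φ a k.castSucc := mem_IdJ_of_upper ha _ fun z hz => by
    rw [evJ_sb, ← PMJ_upper ha k hz]
    exact hP z (mem_Dm_of_im _ _ hz.ne')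
  refine mem_IdJ_of_lower ha _ fun z hz => ?_
  have h2 := h1 z (mem_Dm_of_im _ _ hz.ne)
  rw [evJ_sb, PMJ_lower' ha k hz, ← mul_assoc, TJ_mul] at h2
  rw [evJ_sb, two_mul, neg_add]
  exact h2

/-- a polynomial family of tuples of matrices which preserves the relations for infinitely many parameters -/
theorem poly_familyJ {a : Fin N → ℝ} {p : Fin (N + 1)} (M : ∀ j, Matrix (Fin (n j)) (Fin (n j)) (Polynomial ℂ))
    {S : Set ℂ} (hS : S.Infinite) (h : ∀ s ∈ S, (fun j => (M j).map (Polynomial.eval s)) ∈ MonJ φ a p) (s : ℂ) :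
    (fun j => (M j).map (Polynomial.eval s)) ∈ MonJ φ a p := by
  rw [mem_MonJ']
  intro P hP z hz
  set q : Polynomial ℂ := MvPolynomial.eval₂ Polynomial.C
    (fun o : Option (IJ n) => o.elim (Polynomial.C z) fun x =>
      (M x.1 * (PMJ φ a p z x.1).map Polynomial.C) x.2.1 x.2.2) P with hq
  have hev : ∀ s, q.eval s = evJ P z ((fun j => (M j).map (Polynomial.eval s) : MJ n) * PMJ φ a p z) := by
    intro s
    have h1 := MvPolynomial.eval₂_comp_left (Polynomial.evalRingHom s) (Polynomial.C)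
      (fun o : Option (IJ n) => o.elim (Polynomial.C z) fun x =>
        (M x.1 * (PMJ φ a p z x.1).map Polynomial.C) x.2.1 x.2.2) P
    rw [← hq] at h1
    have h2 : (Polynomial.evalRingHom s) q = q.eval s := rfl
    rw [← h2, h1]
    unfold evJ
    rw [MvPolynomial.eval]
    congr 1
    · ext c
      simp
    · funext o
      rcases o with _ | x
      · simp
      · simp [Matrix.mul_apply, Polynomial.eval_finsetSum]
  have hq0 : q = 0 := by
    apply Polynomial.eq_zero_of_infinite_isRoot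
    refine hS.mono fun s hs => ?_
    show q.eval s = 0
    rw [hev]
    exact mem_MonJ'.1 (h s hs) P hP z hz
  rw [← hev, hq0, Polynomial.eval_zero]

/-- the transvections as a polynomial family -/
noncomputable def TJp (φ : ∀ j, Fin (n j) ↪o Fin N) (k : Fin N) (j : ι) :
    Matrix (Fin (n j)) (Fin (n j)) (Polynomial ℂ) := by
  classical
  exact if h : ∃ k', φ j k' = k then 1 + (Polynomial.X : Polynomial ℂ) • (Nk h.choose).map Polynomial.C else 1

theorem TJ_poly (k : Fin N) (s : ℂ) : (fun j => (TJp φ k j).map (Polynomial.eval s) : MJ n) = TJ φ k s := by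
  classical
  funext j
  unfold TJp TJ
  by_cases h : ∃ k', φ j k' = k
  · simp only [dif_pos h]
    exact Tk_poly _ s
  · simp only [dif_neg h]
    ext a b
    rw [Matrix.map_apply, Matrix.one_apply, Matrix.one_apply]
    split_ifs <;> simp

theorem TJ_pow (k : Fin N) (s : ℂ) (r : ℕ) : TJ φ k s ^ r = TJ φ k (r * s) := by
  induction r with
  | zero => simp [TJ_zero]
  | succ r ih => rw [pow_succ, ih, TJ_mul]; congr 1; push_cast; ring

theorem TJ_mem_left {a : Fin N → ℝ} (ha : StrictMono a) (k : Fin N) (s : ℂ) : TJ φ k s ∈ MonJ φ a k.castSucc := by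
  rw [← TJ_poly]
  refine poly_familyJ _ (infinite_mul (c := 2 * I) (by simp)) ?_ s
  rintro _ ⟨r, rfl⟩
  rw [TJ_poly, ← TJ_pow]
  exact pow_mem (mono_leftJ ha k) r

theorem TJ_mem_right {a : Fin N → ℝ} (ha : StrictMono a) (k : Fin N) (s : ℂ) : TJ φ k s ∈ MonJ φ a k.succ := by
  rw [← TJ_poly]
  refine poly_familyJ _ (infinite_mul (c := -(2 * I)) (by simp)) ?_ s
  rintro _ ⟨r, rfl⟩
  rw [TJ_poly, ← TJ_pow]
  exact pow_mem (mono_rightJ ha k) r

theorem IdJ_succ {a : Fin N → ℝ} (ha : StrictMono a) (k : Fin N) : IdJ φ a k.castSucc = IdJ φ a k.succ := by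
  ext P
  constructor
  · intro hP
    refine mem_IdJ_of_upper ha _ fun z hz => ?_
    rw [PMJ_upper ha k hz]
    exact mem_MonJ'.1 (TJ_mem_left ha k (-I)) P hP z (mem_Dm_of_im _ _ hz.ne')
  · intro hP
    refine mem_IdJ_of_upper ha _ fun z hz => ?_
    rw [PMJ_upper' ha k hz]
    exact mem_MonJ'.1 (TJ_mem_right ha k I) P hP z (mem_Dm_of_im _ _ hz.ne')

theorem IdJ_eq {a : Fin N → ℝ} (ha : StrictMono a) (p : Fin (N + 1)) : IdJ φ a p = IdJ φ a 0 := by
  induction p using Fin.induction with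
  | zero => rfl
  | succ k ih => rw [← IdJ_succ ha k, ih]

theorem MonJ_eq {a : Fin N → ℝ} (ha : StrictMono a) (p p' : Fin (N + 1)) : MonJ φ a p = MonJ φ a p' := by
  ext g
  rw [mem_MonJ, mem_MonJ, IdJ_eq ha p, IdJ_eq ha p']

theorem TJ_mem {a : Fin N → ℝ} (ha : StrictMono a) (p : Fin (N + 1)) (k : Fin N) (s : ℂ) :
    TJ φ k s ∈ MonJ φ a p := by
  rw [MonJ_eq ha p k.castSucc]
  exact TJ_mem_left ha k s

end Pool.Agent.N156.HC
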