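import Pool.Agent.N156.HC.Inst

/-!
# The double covers of the line which ramify at subsets of a common set: main results
-/

set_option autoImplicit false
set_option linter.unusedSectionVars false

open Filter Matrix NumberField

namespace Pool.Agent.N156.HC

open Pool.Agent.Y118.HP (jm SpS jm_map qm perC per perC_eq_perT per_eq_perT)
open Pool.Agent.Y890.MV
open Pool.Agent.Y890.HE (Ord Ord_nonempty Ord_real strictMono_of_mem)
open Pool.Agent.Y890.SM
open Pool.Agent.Y124 (Cov)

variable {N : ℕ}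

/-- the subsets of `{0, …, N}` of odd cardinality at least three -/
abbrev Sb (N : ℕ) : Type := {S : Finset (Fin (N + 1)) // Odd S.card ∧ 3 ≤ S.card}

/-- twice the genus of the curve of `S` -/
abbrev sz (S : Sb N) : ℕ := S.1.card - 1

/-- the `r`-th smallest element of `S` -/
def el (S : Sb N) : Fin (sz S + 1) ↪o Fin (N + 1) :=
  S.1.orderEmbOfFin (by have := S.2.2; show S.1.card = S.1.card - 1 + 1; omega)

theorem el_range (S : Sb N) (k : Fin (N + 1)) : (∃ r, el S r = k) ↔ k ∈ S.1 := by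
  have h1 := Finset.range_orderEmbOfFin S.1 (show S.1.card = sz S + 1 by
    have := S.2.2; show S.1.card = S.1.card - 1 + 1; omega)
  have h2 : k ∈ Set.range (el S) ↔ k ∈ (S.1 : Set (Fin (N + 1))) := by
    rw [← h1]
    rfl
  exact h2

theorem el_inj (S S' : Sb N) (h : ∀ k, (∃ r, el S r = k) ↔ (∃ r, el S' r = k)) : S = S' := by
  refine Subtype.ext (Finset.ext fun k => ?_)
  rw [← el_range, ← el_range]
  exact h k

theorem sz_even (S : Sb N) : Even (sz S) := by
  obtain ⟨k, hk⟩ := S.2.1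
  exact ⟨k, by show S.1.card - 1 = k + k; omega⟩

theorem sz_pos (S : Sb N) : 0 < sz S := by
  have := S.2.2
  show 0 < S.1.card - 1
  omega

/-- the product over the points of `S` -/
theorem el_prod {M : Type} [CommMonoid M] (S : Sb N) (f : Fin (N + 1) → M) : ∏ r, f (el S r) = ∏ i ∈ S.1, f i := by
  have h1 : Finset.univ.map (el S).toEmbedding = S.1 := by
    ext k
    rw [Finset.mem_map, ← el_range]
    constructor
    · rintro ⟨r, _, h⟩
      exact ⟨r, h⟩
    · rintro ⟨r, h⟩
      exact ⟨r, Finset.mem_univ _, h⟩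
  conv_rhs => rw [← h1]
  rw [Finset.prod_map]
  rfl

/-- tuples of matrices of the sizes of the period matrices of the curves `C S` -/
abbrev Tup (N : ℕ) : Type := ∀ S : Sb N, Matrix (Fin (sz S)) (Fin (sz S)) ℂ

/-- the period matrices of the curves `C S : y² = ∏ i ∈ S, (x - e i)`: if `s 0 < s 1 < …` are the elements of `S`, the
`(l, j)` entry is the integral of `x ^ j dx / √(± ∏ i ∈ S, (x - e i))` from `e (s l)` to `e (s (l + 1))` -/
noncomputable def pmS (e : Fin (N + 1) → ℂ) : Tup N :=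
  fun S => Matrix.of fun l j => perC (fun r => e (el S r)) l j

/-- the matrix of the cup product on the differentials `x ^ j dx / y` of the curve of `S`: `2 i (a - b) / 2 * c (a + b + 2)`
at `(a, b)`, where `∏ i ∈ S, (x - e i) = ∑ c k x ^ k` -/
noncomputable def QS (e : Fin (N + 1) → ℂ) (S : Sb N) : Matrix (Fin (sz S)) (Fin (sz S)) ℂ :=
  (2 * Complex.I) • qm (sz S) (∏ i ∈ S.1, (Polynomial.X - Polynomial.C (e i)))

/-- the torsor of the periods: the `(Y, μ)`, `μ ≠ 0`, with `Y S * Q S * (Y S)ᵀ = μ J` for all `S`, where `J` is the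
intersection matrix -/
def torS (e : Fin (N + 1) → ℂ) : Set (Tup N × ℂ) :=
  {p | p.2 ≠ 0 ∧ ∀ S, p.1 S * QS e S * (p.1 S).transpose = p.2 • jm ℂ (sz S)}

/-- the relations over `K` of degree at most `k`, with coefficients of size at most `T ^ k`, between the periods at `e`
and the constants `ξ`, respectively the powers of `2 π i`, hold on the torsor -/
def GenericS (k : ℕ) (K : Type) [Field K] [NumberField K] (io : K →+* ℂ) (ξ : Fin k → ℂ) (T : ℝ)
    (e : Fin (N + 1) → ℂ) : Prop :=
  ∀ c : (Ix (sz (N := N)) → Fin (k + 1)) → Fin k → 𝓞 K,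
    (∀ l a (φ : K →+* ℂ), ‖φ (c l a : K)‖ ≤ T ^ k) →
    (poly (fun l a => io (c l a : K)) ξ (pmS e) = 0 →
      ∀ Y, (Y, tpi) ∈ torS e → poly (fun l a => io (c l a : K)) ξ Y = 0) ∧
    (poly (fun l a => io (c l a : K)) (fun a => tpi ^ (a : ℕ)) (pmS e) = 0 →
      ∀ p ∈ torS e, poly (fun l a => io (c l a : K)) (fun a => p.2 ^ (a : ℕ)) p.1 = 0)

/-- the points over `K`, of height at most `T`, of norm at most `k` and distance at least `1 / k` from the complement of
the domain, which are not generic -/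
def ExcS (k : ℕ) (K : Type) [Field K] [NumberField K] (io : K →+* ℂ) (ξ : Fin k → ℂ) (T : ℝ) :
    Set (Fin (N + 1) → K) :=
  {e | (∀ j, Y120.HtLe K T (e j)) ∧ (fun j => io (e j)) ∈ InnerM (Ord N) k ∧
    ¬ GenericS k K io ξ T (fun j => io (e j))}

/-- the family -/
noncomputable def famS (N : ℕ) : SympFam (Fin (N + 1)) (sz (N := N)) := fam el sz_even sz_pos el_inj

theorem pmS_eq (e : Fin (N + 1) → ℂ) : pmS e = fun S => (famS N).P S e := rfl

theorem QS_eq (e : Fin (N + 1) → ℂ) (S : Sb N) : ((famS N).Q S).map (MvPolynomial.aeval e) = QS e S := by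
  have h1 : ((famS N).Q S).map (MvPolynomial.aeval e) = (2 * Complex.I) • qm (sz S)
      (∏ r : Fin (sz S + 1), (Polynomial.X - Polynomial.C (e (el S r)))) := QE_eval el S e
  rw [h1, el_prod S fun i => Polynomial.X - Polynomial.C (e i)]
  rfl

theorem JS_eq (S : Sb N) : ((famS N).J S).map (algebraMap ℚ ℂ) = jm ℂ (sz S) := jm_map (algebraMap ℚ ℂ)

theorem torS_eq (e : Fin (N + 1) → ℂ) : torS e = (famS N).torsor e := by
  ext p
  unfold torS SympFam.torsor
  simp only [Set.mem_ofPred_eq, QS_eq, JS_eq]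
  have : ∀ S, (famS N).w S = 1 := fun _ => rfl
  simp only [this, pow_one]

theorem ExcS_eq (k : ℕ) (K : Type) [Field K] [NumberField K] (io : K →+* ℂ) (ξ : Fin k → ℂ) (T : ℝ) :
    (ExcS k K io ξ T : Set (Fin (N + 1) → K)) = (famS N).Exceptional k K io ξ T := by
  unfold ExcS SympFam.Exceptional GenericS SympFam.Generic
  simp only [torS_eq, pmS_eq]
  rfl

/-- for real points the periods are real integrals -/
theorem pmS_real {e : Fin (N + 1) → ℝ} (he : StrictMono e) (S : Sb N) (l j : Fin (sz S)) :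
    pmS (fun i => (e i : ℂ)) S l j = ((∫ x in (e (el S l.castSucc))..(e (el S l.succ)),
      x ^ (j : ℕ) / √|∏ i ∈ S.1, (x - e i)| : ℝ) : ℂ) := by
  have h0 : StrictMono fun r => e (el S r) := he.comp (el S).strictMono
  have h1 := perC_eq_perT h0 l (j : ℕ)
  rw [← per_eq_perT h0] at h1
  have h2 : ∀ x : ℝ, ∏ i ∈ S.1, (x - e i) = ∏ r, (x - e (el S r)) := fun x => (el_prod S fun i => x - e i).symm
  simp only [h2]
  exact h1

/-- the relations over `ℂ(e)` -/
theorem relS (p : MvPolynomial (Ix (sz (N := N))) (MvPolynomial (Fin (N + 1)) ℂ))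
    (hp : ∀ e ∈ Ord N, evX e (fun q => pmS e q.1 q.2.1 q.2.2) p = 0) (e : Fin (N + 1) → ℂ) (he : e ∈ Ord N)
    (Y : Tup N) (hY : (Y, tpi) ∈ torS e) : evX e (fun q => Y q.1 q.2.1 q.2.2) p = 0 := by
  have h1 := (famS N).tor
  refine h1.inv p hp e he (fun q => Y q.1 q.2.1 q.2.2) fun i => ?_
  rw [torS_eq] at hY
  exact hY.2 i

end Pool.Agent.N156.HC
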