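import Pool.Agent.N156.HC.Joint
import Pool.Agent.Y118.HP.Alg1

/-!
# The simultaneous transvections generate the product of the symplectic groups
-/

set_option autoImplicit false

open Complex Set Filter Topology Matrix

namespace Pool.Agent.N156.HC

open Pool.Agent.Y118.HP

section tv

variable {n : ℕ}

theorem TV_sq (w : Fin n → ℂ) : vecMulVec (jm ℂ n *ᵥ w) w * vecMulVec (jm ℂ n *ᵥ w) w = 0 := by
  rw [vecMulVec_mul_vecMulVec]
  have := om_self w
  unfold om at this
  rw [this]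
  simp

theorem TV_add (w : Fin n → ℂ) (x y : ℂ) : TV w x * TV w y = TV w (x + y) := by
  unfold TV
  rw [mul_add, add_mul, add_mul, mul_one, one_mul, mul_one, smul_mul_smul_comm, TV_sq, smul_zero, add_zero, add_smul,
    add_assoc]

theorem TV_mem (w : Fin n → ℂ) (x : ℂ) : TV w x ∈ SpS ℂ n := by
  rw [TV_eq]
  exact TVK_mem two_ne_zero w x

theorem om_e {r : ℕ} (hr : r + 1 < n) {v : Fin n → ℂ} (hv : ∀ i : Fin n, r < (i : ℕ) → v i = 0)
    (hv' : v ⟨r, by omega⟩ ≠ 0) : om (Pi.single (⟨r + 1, hr⟩ : Fin n) 1) v ≠ 0 := by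
  rw [om_single, jm_mulVec]
  have h1 : ext0 v (r + 1 - 1) = v ⟨r, by omega⟩ := by
    rw [Nat.add_sub_cancel, ext0, dif_pos (by omega)]
  have h2 : ext0 v (r + 1 + 1) = 0 := by
    rw [ext0]
    split_ifs with h
    · exact hv _ (by simp only; omega)
    · rfl
  simp only [Nat.add_eq_zero_iff, one_ne_zero, and_false, if_false]
  rw [h1, h2, add_zero]
  refine mul_ne_zero ?_ hv'
  simp

/-- the conjugate of the transvection of `v - e` by a commutator of transvections of `v` and `e` -/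
theorem tv_four {v e : Fin n → ℂ} (h : om e v ≠ 0) (r : ℂ) :
    TV v (3 / (2 * om e v)) * (TV e (1 / om e v) * (TV v (-(3 / (2 * om e v))) * (TV e (-(1 / om e v)) *
      TV (v - e) r * TV e (1 / om e v)) * TV v (3 / (2 * om e v))) * TV e (-(1 / om e v))) *
      TV v (-(3 / (2 * om e v))) = TV (v - e) (16 * r) := by
  have hl : ∀ (u x y : Fin n → ℂ) (a b : ℂ), om u (a • x + b • y) = a * om u x + b * om u y := by
    intro u x y a b
    unfold om
    rw [mulVec_add, mulVec_smul, mulVec_smul, dotProduct_add, dotProduct_smul, dotProduct_smul, smul_eq_mul,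
      smul_eq_mul]
  set c := om e v with hc
  have hve : om v e = -c := om_skew e v
  have hee : om e e = 0 := om_self e
  have hvv : om v v = 0 := om_self v
  have s1 : TV e (-(1 / c)) * TV (v - e) r * TV e (1 / c) = TV ((1 : ℂ) • v + (-2 : ℂ) • e) r := by
    have h1 := TV_conj e (v - e) (-(1 / c)) r
    rw [neg_neg] at h1
    rw [h1]
    have h2 : om e (v - e) = c := by
      have := hl e v e 1 (-1)
      rw [one_smul, neg_one_smul, ← sub_eq_add_neg, hee] at this
      rw [this]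
      ring
    rw [h2, neg_mul, one_div, inv_mul_cancel₀ h]
    congr 1
    module
  have s2 : TV v (-(3 / (2 * c))) * TV ((1 : ℂ) • v + (-2 : ℂ) • e) r * TV v (3 / (2 * c)) =
      TV ((-2 : ℂ) • v + (-2 : ℂ) • e) r := by
    have h1 := TV_conj v ((1 : ℂ) • v + (-2 : ℂ) • e) (-(3 / (2 * c))) r
    rw [neg_neg] at h1
    rw [h1, hl, hvv, hve]
    have h3 : -(3 / (2 * c)) * (1 * 0 + -2 * -c) = (-3 : ℂ) := by
      field_simp
      ring
    rw [h3]
    congr 1
    module
  have s3 : TV e (1 / c) * TV ((-2 : ℂ) • v + (-2 : ℂ) • e) r * TV e (-(1 / c)) =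
      TV ((-2 : ℂ) • v + (-4 : ℂ) • e) r := by
    rw [TV_conj, hl, hee]
    have h3 : 1 / c * (-2 * om e v + -2 * 0) = (-2 : ℂ) := by
      rw [← hc]
      field_simp
      ring
    rw [h3]
    congr 1
    module
  have s4 : TV v (3 / (2 * c)) * TV ((-2 : ℂ) • v + (-4 : ℂ) • e) r * TV v (-(3 / (2 * c))) =
      TV ((4 : ℂ) • (v - e)) r := by
    rw [TV_conj, hl, hvv, hve]
    have h3 : 3 / (2 * c) * (-2 * 0 + -4 * -c) = (6 : ℂ) := by
      field_simp
      ring
    rw [h3]
    congr 1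
    module
  rw [s1, s2, s3, s4, TV_smul]
  congr 1
  ring

end tv

variable {N : ℕ} {ι : Type} {n : ι → ℕ} {φ : ∀ j, Fin (n j) ↪o Fin N}

/-- the simultaneous transvections as units -/
noncomputable def TU (φ : ∀ j, Fin (n j) ↪o Fin N) (k : Fin N) (s : ℂ) : (MJ n)ˣ :=
  ⟨TJ φ k s, TJ φ k (-s), by rw [TJ_mul, add_neg_cancel, TJ_zero], by rw [TJ_mul, neg_add_cancel, TJ_zero]⟩

/-- the group generated by the simultaneous transvections -/
noncomputable def GJ (φ : ∀ j, Fin (n j) ↪o Fin N) : Subgroup (MJ n)ˣ :=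
  Subgroup.closure (Set.range fun q : Fin N × ℂ => TU φ q.1 q.2)

theorem TU_mem (k : Fin N) (s : ℂ) : TU φ k s ∈ GJ φ := Subgroup.subset_closure ⟨(k, s), rfl⟩

theorem GJ_mem {a : Fin N → ℝ} (ha : StrictMono a) (p : Fin (N + 1)) {u : (MJ n)ˣ} (hu : u ∈ GJ φ) :
    (u : MJ n) ∈ MonJ φ a p := by
  have h1 : GJ φ ≤ (MonJ φ a p).units := by
    unfold GJ
    rw [Subgroup.closure_le]
    rintro _ ⟨⟨k, s⟩, rfl⟩
    rw [SetLike.mem_coe, Submonoid.mem_units_iff]
    exact ⟨TJ_mem ha p k s, TJ_mem ha p k (-s)⟩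
  exact ((Submonoid.mem_units_iff _ _).1 (h1 hu)).1

theorem inv_comp {u : (MJ n)ˣ} {j : ι} {A B : Matrix (Fin (n j)) (Fin (n j)) ℂ} (h : (u : MJ n) j = A)
    (hBA : B * A = 1) : ((u⁻¹ : (MJ n)ˣ) : MJ n) j = B := by
  have h1 : (u : MJ n) j * ((u⁻¹ : (MJ n)ˣ) : MJ n) j = 1 := by
    rw [← Pi.mul_apply, Units.mul_inv, Pi.one_apply]
  calc ((u⁻¹ : (MJ n)ˣ) : MJ n) j = (B * A) * ((u⁻¹ : (MJ n)ˣ) : MJ n) j := by rw [hBA, one_mul]
    _ = B * ((u : MJ n) j * ((u⁻¹ : (MJ n)ˣ) : MJ n) j) := by rw [h, mul_assoc]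
    _ = B := by rw [h1, mul_one]

theorem GJ_sp {u : (MJ n)ˣ} (hu : u ∈ GJ φ) (j : ι) : (u : MJ n) j ∈ SpS ℂ (n j) := by
  unfold GJ at hu
  induction hu using Subgroup.closure_induction with
  | mem x h =>
    obtain ⟨⟨k, s⟩, rfl⟩ := h
    show TJ φ k s j ∈ _
    by_cases h : ∃ k', φ j k' = k
    · obtain ⟨k', h⟩ := h
      rw [TJ_of h]
      have h1 := TV_mem (Pi.single k' 1 : Fin (n j) → ℂ) ((-1) ^ (k' : ℕ) * s)
      rw [TV_single, ← mul_assoc, ← mul_pow] at h1
      simpa using h1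
    · rw [TJ_not h]
      exact SpS_one
  | one => exact SpS_one
  | mul x y _ _ hx hy => exact SpS_mul hx hy
  | inv x _ hx =>
    have h1 : (x : MJ n) j * ((x⁻¹ : (MJ n)ˣ) : MJ n) j = 1 := by
      rw [← Pi.mul_apply, Units.mul_inv, Pi.one_apply]
    have h2 : ((x⁻¹ : (MJ n)ˣ) : MJ n) j * (x : MJ n) j = 1 := by
      rw [← Pi.mul_apply, Units.inv_mul, Pi.one_apply]
    have h3 : (x : MJ n) j * jm ℂ (n j) * ((x : MJ n) j).transpose = jm ℂ (n j) := hx
    show ((x⁻¹ : (MJ n)ˣ) : MJ n) j * jm ℂ (n j) * (((x⁻¹ : (MJ n)ˣ) : MJ n) j).transpose = jm ℂ (n j)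
    set A := (x : MJ n) j
    set B := ((x⁻¹ : (MJ n)ˣ) : MJ n) j
    calc B * jm ℂ (n j) * B.transpose = B * (A * jm ℂ (n j) * A.transpose) * B.transpose := by rw [h3]
      _ = (B * A) * jm ℂ (n j) * (B * A).transpose := by
        rw [Matrix.transpose_mul]; simp only [Matrix.mul_assoc]
      _ = jm ℂ (n j) := by rw [h2, one_mul, transpose_one, mul_one]

/-- the vectors whose transvections are in the projection of the group -/
def V0 (φ : ∀ j, Fin (n j) ↪o Fin N) (j : ι) : Set (Fin (n j) → ℂ) :=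
  {v | ∀ s, ∃ u ∈ GJ φ, (u : MJ n) j = TV v s}

theorem single_mem0 (j : ι) (k' : Fin (n j)) : (Pi.single k' 1 : Fin (n j) → ℂ) ∈ V0 φ j := by
  intro s
  refine ⟨TU φ (φ j k') ((-1) ^ (k' : ℕ) * s), TU_mem _ _, ?_⟩
  rw [TV_single]
  exact TJ_of rfl _

theorem add_mem0 {j : ι} {u v : Fin (n j) → ℂ} (hu : u ∈ V0 φ j) (hv : v ∈ V0 φ j) (h : om u v ≠ 0) (c : ℂ) :
    v + c • u ∈ V0 φ j := by
  intro r
  obtain ⟨x, hx, hx1⟩ := hu (c / om u v)
  obtain ⟨y, hy, hy1⟩ := hv r
  refine ⟨x * y * x⁻¹, mul_mem (mul_mem hx hy) (inv_mem hx), ?_⟩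
  have h1 := TV_conj u v (c / om u v) r
  rw [div_mul_cancel₀ _ h] at h1
  rw [← h1, Units.val_mul, Units.val_mul, Pi.mul_apply, Pi.mul_apply, hx1, hy1,
    inv_comp hx1 (B := TV u (-(c / om u v))) (by rw [TV_add, neg_add_cancel]; unfold TV; simp)]

theorem TV_zero {m : ℕ} (v : Fin m → ℂ) : TV v 0 = 1 := by unfold TV; simp

/-- transvections in one factor, and in the factors of larger sets of points -/
theorem chain (j : ι) (r : ℕ) : ∀ hr : r < n j, ∃ v : Fin (n j) → ℂ, (∀ i : Fin (n j), r < (i : ℕ) → v i = 0) ∧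
    v ⟨r, hr⟩ ≠ 0 ∧ v ∈ V0 φ j ∧ ∀ s, ∃ u ∈ GJ φ, (u : MJ n) j = TV v s ∧
      ∀ j', (∃ i : Fin (n j), (i : ℕ) ≤ r ∧ ¬ ∃ k', φ j' k' = φ j i) → (u : MJ n) j' = 1 := by
  induction r with
  | zero =>
    intro hr
    refine ⟨Pi.single ⟨0, hr⟩ 1, fun i hi => ?_, by simp, single_mem0 j _, fun s => ?_⟩
    · rw [Pi.single_eq_of_ne]
      intro h
      rw [h] at hi
      exact absurd hi (lt_irrefl _)
    · refine ⟨TU φ (φ j ⟨0, hr⟩) ((-1) ^ ((⟨0, hr⟩ : Fin (n j)) : ℕ) * s), TU_mem _ _, ?_, ?_⟩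
      · rw [TV_single]
        exact TJ_of rfl _
      · rintro j' ⟨i, hi, hi'⟩
        have h1 : i = ⟨0, hr⟩ := Fin.ext (by simp only; omega)
        rw [h1] at hi'
        exact TJ_not hi' _
  | succ r ih =>
    intro hr
    obtain ⟨v, hv1, hv2, hv3, hv4⟩ := ih (by omega)
    set e : Fin (n j) → ℂ := Pi.single ⟨r + 1, hr⟩ 1 with he
    have hc : om e v ≠ 0 := om_e hr hv1 hv2
    have heV : e ∈ V0 φ j := single_mem0 j _
    have hw : v - e ∈ V0 φ j := by
      have h1 := add_mem0 heV hv3 hc (-1)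
      rwa [neg_one_smul, ← sub_eq_add_neg] at h1
    obtain ⟨x, hx, hx1, hx2⟩ := hv4 (3 / (2 * om e v))
    set y : (MJ n)ˣ := TU φ (φ j ⟨r + 1, hr⟩) ((-1) ^ ((⟨r + 1, hr⟩ : Fin (n j)) : ℕ) * (1 / om e v)) with hy
    have hyG : y ∈ GJ φ := TU_mem _ _
    have hy1 : (y : MJ n) j = TV e (1 / om e v) := by
      rw [he, TV_single]
      exact TJ_of rfl _
    have hx' : ((x⁻¹ : (MJ n)ˣ) : MJ n) j = TV v (-(3 / (2 * om e v))) :=
      inv_comp hx1 (by rw [TV_add, neg_add_cancel, TV_zero])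
    have hy' : ((y⁻¹ : (MJ n)ˣ) : MJ n) j = TV e (-(1 / om e v)) :=
      inv_comp hy1 (by rw [TV_add, neg_add_cancel, TV_zero])
    refine ⟨v - e, fun i hi => ?_, ?_, hw, fun s => ?_⟩
    · rw [Pi.sub_apply, hv1 i (by omega), he, Pi.single_eq_of_ne, sub_zero]
      intro h
      rw [h] at hi
      exact absurd hi (lt_irrefl _)
    · rw [Pi.sub_apply, hv1 _ (by simp), he, Pi.single_eq_same]
      simp
    · obtain ⟨z, hz, hz1⟩ := hw (s / 15)
      have hz' : ((z⁻¹ : (MJ n)ˣ) : MJ n) j = TV (v - e) (-(s / 15)) :=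
        inv_comp hz1 (by rw [TV_add, neg_add_cancel, TV_zero])
      refine ⟨x * y * x⁻¹ * y⁻¹ * z * (y * x * y⁻¹ * x⁻¹) * z⁻¹, ?_, ?_, ?_⟩
      · have hxi := inv_mem hx
        have hyi := inv_mem hyG
        exact mul_mem (mul_mem (mul_mem (mul_mem (mul_mem (mul_mem hx hyG) hxi) hyi) hz)
          (mul_mem (mul_mem (mul_mem hyG hx) hyi) hxi)) (inv_mem hz)
      · have h1 := tv_four hc (s / 15)
        have h2 : ((x * y * x⁻¹ * y⁻¹ * z * (y * x * y⁻¹ * x⁻¹) * z⁻¹ : (MJ n)ˣ) : MJ n) j =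
            (TV v (3 / (2 * om e v)) * (TV e (1 / om e v) * (TV v (-(3 / (2 * om e v))) * (TV e (-(1 / om e v)) *
              TV (v - e) (s / 15) * TV e (1 / om e v)) * TV v (3 / (2 * om e v))) * TV e (-(1 / om e v))) *
              TV v (-(3 / (2 * om e v)))) * TV (v - e) (-(s / 15)) := by
          simp only [Units.val_mul, Pi.mul_apply, hx1, hy1, hz1, hx', hy', hz', mul_assoc]
        rw [h2, h1, TV_add]
        congr 1
        ring
      · rintro j' ⟨i, hi, hi'⟩
        have hinv : ∀ t : (MJ n)ˣ, (t : MJ n) j' = 1 → ((t⁻¹ : (MJ n)ˣ) : MJ n) j' = 1 := fun t ht =>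
          inv_comp ht (by rw [mul_one])
        have hmi : ∀ t : (MJ n)ˣ, (t : MJ n) j' * ((t⁻¹ : (MJ n)ˣ) : MJ n) j' = 1 := fun t => by
          rw [← Pi.mul_apply, Units.mul_inv, Pi.one_apply]
        simp only [Units.val_mul, Pi.mul_apply]
        rcases Nat.lt_or_ge r (i : ℕ) with h | h
        · have h1 : i = ⟨r + 1, hr⟩ := Fin.ext (by simp only; omega)
          rw [h1] at hi'
          have hy0 : (y : MJ n) j' = 1 := TJ_not hi' _
          rw [hy0, hinv y hy0]
          simp only [mul_one, one_mul]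
          rw [hmi x, one_mul, mul_one, hmi z]
        · have hx0 : (x : MJ n) j' = 1 := hx2 j' ⟨i, h, hi'⟩
          rw [hx0, hinv x hx0]
          simp only [mul_one, one_mul]
          rw [hmi y, one_mul, mul_one, hmi z]

section final

variable [Fintype ι] [DecidableEq ι]

theorem tuple_mem (Mo : Submonoid (MJ n)) (g : MJ n) (h : ∀ j, (Pi.mulSingle j (g j) : MJ n) ∈ Mo) : g ∈ Mo := by
  have key : ∀ A : Finset ι, (fun j => if j ∈ A then g j else 1 : MJ n) ∈ Mo := by
    intro A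
    induction A using Finset.induction_on with
    | empty =>
      have : (fun j => if j ∈ (∅ : Finset ι) then g j else 1 : MJ n) = 1 := by
        funext j
        simp
      rw [this]
      exact one_mem _
    | insert j0 A hj0 ih =>
      have h1 : (fun j => if j ∈ insert j0 A then g j else 1 : MJ n) =
          (fun j => if j ∈ A then g j else 1 : MJ n) * (Pi.mulSingle j0 (g j0) : MJ n) := by
        funext j
        rw [Pi.mul_apply]
        by_cases hj : j = j0
        · subst hj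
          simp [hj0]
        · rw [Pi.mulSingle_eq_of_ne hj, mul_one]
          simp [hj]
      rw [h1]
      exact mul_mem ih (h j0)
  have h1 := key Finset.univ
  simpa using h1

omit [Fintype ι] in
theorem mulSingle_map (j : ι) (G : Matrix (Fin (n j)) (Fin (n j)) (Polynomial ℂ)) (s : ℂ) :
    (fun j' => ((Pi.mulSingle j G : ∀ j, Matrix (Fin (n j)) (Fin (n j)) (Polynomial ℂ)) j').map (Polynomial.eval s) :
      MJ n) = Pi.mulSingle j (G.map (Polynomial.eval s)) := by
  funext j'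
  by_cases h : j' = j
  · subst h
    rw [Pi.mulSingle_eq_same, Pi.mulSingle_eq_same]
  · rw [Pi.mulSingle_eq_of_ne h, Pi.mulSingle_eq_of_ne h]
    ext a b
    rw [Matrix.map_apply, Matrix.one_apply, Matrix.one_apply]
    split_ifs <;> simp

/-- **All symplectic matrices in all the factors preserve the relations.** -/
theorem pure_mem (hn : ∀ j, Even (n j)) (hpos : ∀ j, 0 < n j)
    (hd : ∀ j j', (∀ k, (∃ k', φ j k' = k) ↔ (∃ k', φ j' k' = k)) → j = j')
    {a : Fin N → ℝ} (ha : StrictMono a) (p : Fin (N + 1)) (d : ℕ) :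
    ∀ j, n j + d = N → ∀ g ∈ SpS ℂ (n j), (Pi.mulSingle j g : MJ n) ∈ MonJ φ a p := by
  induction d using Nat.strong_induction_on with
  | _ d ih =>
  intro j hj
  set Mj : Submonoid (Matrix (Fin (n j)) (Fin (n j)) ℂ) :=
    (MonJ φ a p).comap (MonoidHom.mulSingle (fun j => Matrix (Fin (n j)) (Fin (n j)) ℂ) j) with hMj
  have hmem : ∀ g, g ∈ Mj ↔ (Pi.mulSingle j g : MJ n) ∈ MonJ φ a p := fun g => Iff.rfl
  have hle : ∀ j', n j' ≤ N := by
    intro j'
    have := Fintype.card_le_of_injective (φ j') (φ j').injective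
    simpa using this
  -- the vector
  have h0 := hpos j
  obtain ⟨v, _, hv2, _, hv4⟩ := chain (φ := φ) j (n j - 1) (by omega)
  have hv0 : v ≠ 0 := by
    intro h
    apply hv2
    rw [h]
    rfl
  refine fun g hg => (hmem g).1 (sp_mem_of_one (hn j) (M := Mj) ?_ (v := v) ?_ hv0 ?_ g hg)
  · intro G S hS h s
    rw [hmem, ← mulSingle_map]
    refine poly_familyJ _ hS (fun s hs => ?_) s
    rw [mulSingle_map]
    exact (hmem _).1 (h s hs)
  · intro s
    rw [hmem]
    obtain ⟨u, hu, hu1, hu2⟩ := hv4 s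
    set w : MJ n := fun j' => if j' = j then 1 else ((u⁻¹ : (MJ n)ˣ) : MJ n) j' with hw
    have h1 : (Pi.mulSingle j (TV v s) : MJ n) = (u : MJ n) * w := by
      funext j'
      rw [Pi.mul_apply, hw]
      by_cases h : j' = j
      · subst h
        rw [Pi.mulSingle_eq_same, ← hu1]
        simp
      · rw [Pi.mulSingle_eq_of_ne h]
        simp only [if_neg h]
        rw [← Pi.mul_apply, Units.mul_inv, Pi.one_apply]
    rw [h1]
    refine mul_mem (GJ_mem ha p hu) (tuple_mem _ _ fun j' => ?_)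
    rw [hw]
    by_cases h : j' = j
    · simp only [if_pos h]
      rw [Pi.mulSingle_one]
      exact one_mem _
    · simp only [if_neg h]
      by_cases hsub : ∀ i : Fin (n j), ∃ k', φ j' k' = φ j i
      · -- a larger set
        have hlt : n j < n j' := by
          by_contra hcon
          rw [not_lt] at hcon
          apply h
          refine (hd j j' fun k => ?_).symm
          have h2 : (Finset.univ.map (φ j).toEmbedding) ⊆ (Finset.univ.map (φ j').toEmbedding) := by
            intro x hx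
            rw [Finset.mem_map] at hx ⊢
            obtain ⟨i, _, rfl⟩ := hx
            obtain ⟨k', hk'⟩ := hsub i
            exact ⟨k', Finset.mem_univ _, hk'⟩
          have h3 := Finset.eq_of_subset_of_card_le h2 (by
            rw [Finset.card_map, Finset.card_map, Finset.card_univ, Finset.card_univ, Fintype.card_fin,
              Fintype.card_fin]
            exact hcon)
          have h4 : ∀ (j : ι) (k : Fin N), (∃ k', φ j k' = k) ↔ k ∈ Finset.univ.map (φ j).toEmbedding := by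
            intro j k
            rw [Finset.mem_map]
            constructor
            · rintro ⟨k', hk'⟩
              exact ⟨k', Finset.mem_univ _, hk'⟩
            · rintro ⟨k', _, hk'⟩
              exact ⟨k', hk'⟩
          rw [h4, h4, h3]
        have hle' := hle j'
        exact ih (N - n j') (by omega) j' (by omega) _ (GJ_sp (inv_mem hu) j')
      · push Not at hsub
        obtain ⟨i, hi⟩ := hsub
        have h2 : (u : MJ n) j' = 1 := hu2 j' ⟨i, by have := i.2; omega, by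
          rintro ⟨k', hk'⟩
          exact hi k' hk'⟩
        have h3 : ((u⁻¹ : (MJ n)ˣ) : MJ n) j' = 1 := inv_comp h2 (by rw [mul_one])
        rw [h3, Pi.mulSingle_one]
        exact one_mem _
  · intro k w hw c h r
    rw [hmem]
    obtain ⟨x, hx, hx1⟩ := single_mem0 (φ := φ) j k (c / om (Pi.single k 1) w)
    have h1 := TV_conj (Pi.single k 1) w (c / om (Pi.single k 1) w) r
    rw [div_mul_cancel₀ _ h] at h1
    have h2 : (Pi.mulSingle j (TV (w + c • (Pi.single k 1 : Fin (n j) → ℂ)) r) : MJ n) =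
        (x : MJ n) * (Pi.mulSingle j (TV w r) : MJ n) * ((x⁻¹ : (MJ n)ˣ) : MJ n) := by
      funext j'
      rw [Pi.mul_apply, Pi.mul_apply]
      by_cases h : j' = j
      · subst h
        rw [Pi.mulSingle_eq_same, Pi.mulSingle_eq_same, ← h1, hx1,
          inv_comp hx1 (B := TV (Pi.single k 1) (-(c / om (Pi.single k 1) w))) (by rw [TV_add, neg_add_cancel, TV_zero])]
      · rw [Pi.mulSingle_eq_of_ne h, Pi.mulSingle_eq_of_ne h, mul_one, ← Pi.mul_apply, Units.mul_inv, Pi.one_apply]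
    rw [h2]
    exact mul_mem (mul_mem (GJ_mem ha p hx) ((hmem _).1 (hw r))) (GJ_mem ha p (inv_mem hx))

theorem single_sp (hn : ∀ j, Even (n j)) (hpos : ∀ j, 0 < n j)
    (hd : ∀ j j', (∀ k, (∃ k', φ j k' = k) ↔ (∃ k', φ j' k' = k)) → j = j')
    {a : Fin N → ℝ} (ha : StrictMono a) (p : Fin (N + 1)) (j : ι) {g : Matrix (Fin (n j)) (Fin (n j)) ℂ}
    (hg : g ∈ SpS ℂ (n j)) : (Pi.mulSingle j g : MJ n) ∈ MonJ φ a p := by
  have h1 : n j ≤ N := by
    have := Fintype.card_le_of_injective (φ j) (φ j).injective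
    simpa using this
  exact pure_mem hn hpos hd ha p (N - n j) j (by omega) g hg

end final

end Pool.Agent.N156.HC
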