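import Pool.Agent.Y118.HP.Sp

/-!
# Monoids of matrices which contain transvections
-/

set_option autoImplicit false

open Complex Set Filter Topology Matrix

namespace Pool.Agent.N156.HC

open Pool.Agent.Y118.HP

variable {n : ℕ}

/-- closed under polynomial families -/
def PolyClosed (M : Submonoid (Matrix (Fin n) (Fin n) ℂ)) : Prop :=
  ∀ (G : Matrix (Fin n) (Fin n) (Polynomial ℂ)) (S : Set ℂ), S.Infinite →
    (∀ s ∈ S, G.map (Polynomial.eval s) ∈ M) → ∀ s, G.map (Polynomial.eval s) ∈ M

/-- the vectors whose transvections are in the monoid -/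
def VM (M : Submonoid (Matrix (Fin n) (Fin n) ℂ)) : Set (Fin n → ℂ) := {v | ∀ s, TV v s ∈ M}

variable {M : Submonoid (Matrix (Fin n) (Fin n) ℂ)}

theorem smul_memM {v : Fin n → ℂ} (hv : v ∈ VM M) (c : ℂ) : c • v ∈ VM M := by
  intro s
  rw [TV_smul]
  exact hv _

theorem add_memM {u v : Fin n → ℂ} (hu : u ∈ VM M) (hv : v ∈ VM M) (h : om u v ≠ 0) (c : ℂ) :
    v + c • u ∈ VM M := by
  intro r
  have h1 := TV_conj u v (c / om u v) r
  rw [div_mul_cancel₀ _ h] at h1
  rw [← h1]
  exact mul_mem (mul_mem (hu _) (hv _)) (hu _)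

theorem closed_memM (hM : PolyClosed M) {v w : Fin n → ℂ} (h : ∀ c : ℂ, c ≠ 0 → v + c • w ∈ VM M) : v ∈ VM M := by
  intro s
  set G : Matrix (Fin n) (Fin n) (Polynomial ℂ) :=
    1 + (Polynomial.C s : Polynomial ℂ) • vecMulVec
      (fun l => Polynomial.C ((jm ℂ n *ᵥ v) l) + Polynomial.X * Polynomial.C ((jm ℂ n *ᵥ w) l))
      (fun l => Polynomial.C (v l) + Polynomial.X * Polynomial.C (w l)) with hG
  have hGe : ∀ c : ℂ, G.map (Polynomial.eval c) = TV (v + c • w) s := by
    intro c
    ext l k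
    unfold TV
    rw [hG]
    simp only [Matrix.map_apply, Matrix.add_apply, Matrix.smul_apply, smul_eq_mul, vecMulVec_apply,
      Polynomial.eval_add, Polynomial.eval_mul, Polynomial.eval_X, Polynomial.eval_C, mulVec_add, mulVec_smul,
      Pi.add_apply, Pi.smul_apply]
    congr 1
    rw [Matrix.one_apply, Matrix.one_apply]
    split_ifs <;> simp
  have h1 := hM G {c | c ≠ 0} (by
    have : ({c : ℂ | c ≠ 0}) = ({0} : Set ℂ)ᶜ := by ext; simp
    rw [this]
    exact (Set.finite_singleton (0 : ℂ)).infinite_compl) (fun c hc => by rw [hGe]; exact h c hc s) 0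
  rw [hGe] at h1
  simpa using h1

theorem supp_memM (hM : PolyClosed M) (hs : ∀ k : Fin n, (Pi.single k 1 : Fin n → ℂ) ∈ VM M) (r : ℕ) :
    r ≤ n → ∀ v : Fin n → ℂ, (∀ i : Fin n, r ≤ i → v i = 0) → v ∈ VM M := by
  induction r with
  | zero =>
    intro _ v hv s
    have : v = 0 := by funext i; exact hv i (Nat.zero_le _)
    rw [this]
    have h2 : TV (0 : Fin n → ℂ) s = 1 := by unfold TV; simp
    rw [h2]
    exact one_mem _
  | succ r ih =>
    intro hr v hv
    have hrn : r < n := hr
    set k : Fin n := ⟨r, hrn⟩ with hk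
    -- the first part
    set w : Fin n → ℂ := fun i => if (i : ℕ) < r then v i else 0 with hw
    have hvw : v = w + v k • (Pi.single k 1 : Fin n → ℂ) := by
      funext i
      rw [hw]
      simp only [Pi.add_apply, Pi.smul_apply, smul_eq_mul]
      rcases lt_trichotomy (i : ℕ) r with h | h | h
      · have : i ≠ k := by intro hh; rw [hh] at h; simp [hk] at h
        rw [if_pos h, Pi.single_eq_of_ne this]; ring
      · have : i = k := Fin.ext h
        rw [if_neg (by omega), this, Pi.single_eq_same]; ring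
      · have : i ≠ k := by intro hh; rw [hh] at h; simp [hk] at h
        rw [if_neg (by omega), Pi.single_eq_of_ne this, hv i h]; ring
    have hwV : w ∈ VM M := ih (by omega) w fun i hi => by rw [hw]; simp only; rw [if_neg (by omega)]
    have hsk := hs k
    rw [hvw]
    rcases Nat.eq_zero_or_pos r with h0 | hpos
    · have hw0 : w = 0 := by
        funext i; rw [hw]; simp only; rw [if_neg (by omega)]; rfl
      rw [hw0, zero_add]
      exact smul_memM hsk _
    · -- the previous basis vector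
      set k' : Fin n := ⟨r - 1, by omega⟩ with hk'
      have hk'V := hs k'
      have homk : om (Pi.single k 1) (Pi.single k' 1 : Fin n → ℂ) ≠ 0 := by
        rw [om_single, mulVec_single_one]
        show jm ℂ n k k' ≠ 0
        rw [jm_apply, if_pos (by left; simp [hk, hk']; omega)]
        simp
      have hlin : ∀ c : ℂ, om (Pi.single k 1) (w + c • (Pi.single k' 1 : Fin n → ℂ)) =
          om (Pi.single k 1) w + c * om (Pi.single k 1) (Pi.single k' 1 : Fin n → ℂ) := by
        intro c
        unfold om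
        rw [mulVec_add, mulVec_smul, dotProduct_add, dotProduct_smul, smul_eq_mul]
      by_cases h1 : om (Pi.single k 1) w = 0
      · refine closed_memM hM (w := (Pi.single k' 1 : Fin n → ℂ)) fun c hc => ?_
        have h2 : w + c • (Pi.single k' 1 : Fin n → ℂ) ∈ VM M := by
          refine ih (by omega) _ fun i hi => ?_
          have : i ≠ k' := by
            intro hh; rw [hh] at hi; simp [hk'] at hi; omega
          rw [hw]
          simp only [Pi.add_apply, Pi.smul_apply, smul_eq_mul]
          rw [if_neg (by omega), Pi.single_eq_of_ne this]; ring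
        have h3 : om (Pi.single k 1) (w + c • (Pi.single k' 1 : Fin n → ℂ)) ≠ 0 := by
          rw [hlin, h1, zero_add]
          exact mul_ne_zero hc homk
        have h4 := add_memM hsk h2 h3 (v k)
        have e : w + v k • (Pi.single k 1 : Fin n → ℂ) + c • (Pi.single k' 1 : Fin n → ℂ) =
            w + c • (Pi.single k' 1 : Fin n → ℂ) + v k • (Pi.single k 1 : Fin n → ℂ) := by abel
        rw [e]
        exact h4
      · exact add_memM hsk hwV h1 (v k)

/-- a closed monoid which contains the transvections of the unit vectors contains the symplectic group -/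
theorem sp_memM (hn : Even n) (hM : PolyClosed M) (hs : ∀ k : Fin n, (Pi.single k 1 : Fin n → ℂ) ∈ VM M)
    (g : Matrix (Fin n) (Fin n) ℂ) (hg : g * jm ℂ n * g.transpose = jm ℂ n) : g ∈ M := by
  have hall : ∀ v : Fin n → ℂ, v ∈ VM M := fun v =>
    supp_memM hM hs n le_rfl v fun i hi => absurd i.2 (not_lt.2 hi)
  have hdet : IsUnit (jm ℂ n).det := (jm_det hn).isUnit
  set ω : (Fin n → ℂ) →ₗ[ℂ] (Fin n → ℂ) →ₗ[ℂ] ℂ := Matrix.toLinearMap₂' ℂ (-(jm ℂ n)⁻¹) with hω
  have hωa : ∀ u v, ω u v = -(u ⬝ᵥ ((jm ℂ n)⁻¹ *ᵥ v)) := by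
    intro u v
    rw [hω, Matrix.toLinearMap₂'_apply', neg_mulVec, dotProduct_neg]
  have hJinvT : ((jm ℂ n)⁻¹).transpose = -(jm ℂ n)⁻¹ := by
    rw [transpose_nonsing_inv, jm_transpose]
    apply inv_eq_left_inv
    rw [neg_mul_neg, nonsing_inv_mul _ hdet]
  have h0 : ∀ v, ω v v = 0 := by
    intro v
    have h1 : v ⬝ᵥ ((jm ℂ n)⁻¹ *ᵥ v) = v ⬝ᵥ (((jm ℂ n)⁻¹).transpose *ᵥ v) := by
      rw [mulVec_transpose, dotProduct_comm v (v ᵥ* _), ← dotProduct_mulVec]
    rw [hJinvT, neg_mulVec, dotProduct_neg] at h1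
    rw [hωa]
    have : (2 : ℂ) * (v ⬝ᵥ ((jm ℂ n)⁻¹ *ᵥ v)) = 0 := by linear_combination h1
    simp only [mul_eq_zero, OfNat.ofNat_ne_zero, false_or] at this
    rw [this, neg_zero]
  have hnd : ∀ u, (∀ v, ω u v = 0) → u = 0 := by
    intro u hu
    have h1 : ∀ w : Fin n → ℂ, u ⬝ᵥ w = 0 := by
      intro w
      have h2 := hu (jm ℂ n *ᵥ w)
      rw [hωa, mulVec_mulVec, nonsing_inv_mul _ hdet, one_mulVec, neg_eq_zero] at h2
      exact h2
    funext i
    have := h1 (Pi.single i 1)
    rwa [dotProduct_single_one] at this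
  have hg' : g.transpose * (jm ℂ n)⁻¹ * g = (jm ℂ n)⁻¹ := by
    have h1 : g * (jm ℂ n * g.transpose * (jm ℂ n)⁻¹) = 1 := by
      rw [← mul_assoc, ← mul_assoc, hg, mul_nonsing_inv _ hdet]
    have h2 : (jm ℂ n * g.transpose * (jm ℂ n)⁻¹) * g = 1 := mul_eq_one_comm.1 h1
    calc g.transpose * (jm ℂ n)⁻¹ * g = (jm ℂ n)⁻¹ * ((jm ℂ n * g.transpose * (jm ℂ n)⁻¹) * g) := by
          rw [← mul_assoc, ← mul_assoc, ← mul_assoc, nonsing_inv_mul _ hdet, one_mul]
      _ = (jm ℂ n)⁻¹ := by rw [h2, mul_one]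
  have hpres : ∀ u v, ω (Matrix.toLin' g u) (Matrix.toLin' g v) = ω u v := by
    intro u v
    rw [hωa, hωa, toLin'_apply, toLin'_apply, mulVec_mulVec, dotProduct_mulVec, ← vecMul_transpose,
      vecMul_vecMul, ← mul_assoc, hg', ← dotProduct_mulVec]
  have hmem := Pool.Agent.W948.ZC.TR.aux ℂ _ (Fin n → ℂ) ω rfl h0 hnd (Matrix.toLin' g) hpres
  have key : ∀ T ∈ Pool.Agent.W948.ZC.TR.G ω, LinearMap.toMatrix' T ∈ M := by
    intro T hT
    unfold Pool.Agent.W948.ZC.TR.G at hT
    induction hT using Submonoid.closure_induction with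
    | mem T h =>
      obtain ⟨c, u, rfl⟩ := h
      have h1 : LinearMap.toMatrix' (1 + c • (ω u).smulRight u) = TV ((jm ℂ n)⁻¹ *ᵥ u) c := by
        apply (Matrix.toLin'.injective)
        rw [toLin'_toMatrix']
        ext x i
        have h2 : (Matrix.toLin' (TV ((jm ℂ n)⁻¹ *ᵥ u) c)) (Pi.single x 1) =
            TV ((jm ℂ n)⁻¹ *ᵥ u) c *ᵥ (Pi.single x 1) := rfl
        rw [LinearMap.comp_apply, LinearMap.comp_apply, LinearMap.single_apply, h2, TV_mulVec, mulVec_mulVec,
          mul_nonsing_inv _ hdet, one_mulVec]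
        have h3 : ((jm ℂ n)⁻¹ *ᵥ u) ⬝ᵥ (Pi.single x (1 : ℂ)) = ω u (Pi.single x 1) := by
          rw [hωa, dotProduct_comm, ← vecMul_transpose, hJinvT, dotProduct_comm, ← dotProduct_mulVec, neg_mulVec,
            dotProduct_neg]
        rw [h3]
        simp [LinearMap.add_apply, mul_assoc]
      rw [h1]
      exact hall _ c
    | one =>
      have : LinearMap.toMatrix' (1 : Module.End ℂ (Fin n → ℂ)) = 1 := LinearMap.toMatrix'_id
      rw [this]
      exact one_mem _
    | mul A B _ _ hA hB =>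
      have : LinearMap.toMatrix' (A * B) = LinearMap.toMatrix' A * LinearMap.toMatrix' B :=
        LinearMap.toMatrix'_mul A B
      rw [this]
      exact mul_mem hA hB
  have := key _ hmem
  rwa [LinearMap.toMatrix'_toLin'] at this

/-- enough vectors: a closed monoid which contains the transvections of a nonzero vector, and which is normalized by the
transvections of the unit vectors, contains the symplectic group -/
theorem sp_mem_of_one (hn : Even n) (hM : PolyClosed M) {v : Fin n → ℂ} (hv : v ∈ VM M) (hv0 : v ≠ 0)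
    (hconj : ∀ (k : Fin n) (w : Fin n → ℂ), w ∈ VM M → ∀ c : ℂ, om (Pi.single k 1) w ≠ 0 →
      w + c • (Pi.single k 1 : Fin n → ℂ) ∈ VM M)
    (g : Matrix (Fin n) (Fin n) ℂ) (hg : g * jm ℂ n * g.transpose = jm ℂ n) : g ∈ M := by
  -- a unit vector is obtained from a vector which is not orthogonal to it
  have step : ∀ (k : Fin n) (w : Fin n → ℂ), w ∈ VM M → om (Pi.single k 1) w ≠ 0 →
      (Pi.single k 1 : Fin n → ℂ) ∈ VM M := by
    intro k w hw h
    refine closed_memM hM (w := w) fun c hc => ?_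
    have h1 := smul_memM (hconj k w hw c⁻¹ h) c
    rw [smul_add, smul_smul, mul_inv_cancel₀ hc, one_smul, add_comm] at h1
    exact h1
  have hom : ∀ k k' : Fin n, ((k : ℕ) = k' + 1 ∨ (k' : ℕ) = k + 1) →
      om (Pi.single k 1) (Pi.single k' 1 : Fin n → ℂ) ≠ 0 := by
    intro k k' h
    rw [om_single, mulVec_single_one]
    show jm ℂ n k k' ≠ 0
    rw [jm_apply, if_pos h]
    simp
  obtain ⟨k0, hk0⟩ : ∃ k : Fin n, om (Pi.single k 1) v ≠ 0 := by
    by_contra hcon
    push Not at hcon
    apply hv0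
    have h1 : jm ℂ n *ᵥ v = 0 := by
      funext k
      rw [← om_single]
      exact hcon k
    have hdet : IsUnit (jm ℂ n).det := (jm_det hn).isUnit
    have h2 := congrArg (fun w => (jm ℂ n)⁻¹ *ᵥ w) h1
    simpa [mulVec_mulVec, nonsing_inv_mul _ hdet] using h2
  have h0 := step k0 v hv hk0
  -- all larger ones
  have hup : ∀ d : ℕ, ∀ k : Fin n, (k : ℕ) = k0 + d → (Pi.single k 1 : Fin n → ℂ) ∈ VM M := by
    intro d
    induction d with
    | zero =>
      intro k hk
      have : k = k0 := Fin.ext (by simpa using hk)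
      rw [this]
      exact h0
    | succ d ih =>
      intro k hk
      have hk2 := k.2
      exact step k _ (ih ⟨k0 + d, by omega⟩ rfl) (hom _ _ (Or.inl (by simp only; omega)))
  have hdown : ∀ d : ℕ, ∀ k : Fin n, (k : ℕ) + d = k0 → (Pi.single k 1 : Fin n → ℂ) ∈ VM M := by
    intro d
    induction d with
    | zero =>
      intro k hk
      have : k = k0 := Fin.ext (by simpa using hk)
      rw [this]
      exact h0
    | succ d ih =>
      intro k hk
      have hk2 := k0.2
      exact step k _ (ih ⟨k + 1, by omega⟩ (by simp only; omega)) (hom _ _ (Or.inr (by simp only)))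
  refine sp_memM hn hM (fun k => ?_) g hg
  rcases le_total (k0 : ℕ) k with h | h
  · exact hup (k - k0) k (by omega)
  · exact hdown (k0 - k) k (by omega)

end Pool.Agent.N156.HC
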